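import Mathlib

/-! Bounds on compact sets. -/

open scoped Topology ContDiff
open Set Filter Metric

noncomputable section

set_option maxSynthPendingDepth 3

namespace Pool.Agent.H75.PR

variable {E : Type*} [NormedAddCommGroup E] [NormedSpace ℝ E]
  {W : Type*} [NormedAddCommGroup W] [NormedSpace ℝ W]

lemma exists_bounds {G : E → W} {O K : Set E} (hO : IsOpen O) (hG : ContDiffOn ℝ ∞ G O)
    (hK : IsCompact K) (hKc : Convex ℝ K) (hKO : K ⊆ O) :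
    ∃ C : ℝ, 0 ≤ C ∧ (∀ y ∈ K, DifferentiableAt ℝ G y) ∧ (∀ y ∈ K, ‖fderiv ℝ G y‖ ≤ C) ∧
      (∀ y ∈ K, ∀ y' ∈ K, ‖fderiv ℝ G y - fderiv ℝ G y'‖ ≤ C * ‖y' - y‖) ∧
      (∀ y ∈ K, ∀ y' ∈ K, ‖G y - G y'‖ ≤ C * ‖y' - y‖) := by
  have hat : ∀ y ∈ K, ContDiffAt ℝ ∞ G y := fun y hy => hG.contDiffAt (hO.mem_nhds (hKO hy))
  have hd : ∀ y ∈ K, DifferentiableAt ℝ G y := fun y hy => (hat y hy).differentiableAt (by simp)
  have hat1 : ∀ y ∈ K, ContDiffAt ℝ ∞ (fderiv ℝ G) y := fun y hy =>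
    (hat y hy).fderiv_right (m := ∞) (by simp)
  have hat2 : ∀ y ∈ K, ContDiffAt ℝ ∞ (fderiv ℝ (fderiv ℝ G)) y := fun y hy =>
    (hat1 y hy).fderiv_right (m := ∞) (by simp)
  have hc1 : ContinuousOn (fun y => ‖fderiv ℝ G y‖) K := fun y hy =>
    (hat1 y hy).continuousAt.norm.continuousWithinAt
  have hc2 : ContinuousOn (fun y => ‖fderiv ℝ (fderiv ℝ G) y‖) K := fun y hy =>
    (hat2 y hy).continuousAt.norm.continuousWithinAt
  obtain ⟨C₁, hC₁⟩ := (hK.image_of_continuousOn hc1).bddAbove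
  obtain ⟨C₂, hC₂⟩ := (hK.image_of_continuousOn hc2).bddAbove
  have b1 : ∀ y ∈ K, ‖fderiv ℝ G y‖ ≤ C₁ := fun y hy => hC₁ (mem_image_of_mem _ hy)
  have b2 : ∀ y ∈ K, ‖fderiv ℝ (fderiv ℝ G) y‖ ≤ C₂ := fun y hy => hC₂ (mem_image_of_mem _ hy)
  refine ⟨max (max C₁ C₂) 0, le_max_right _ _, hd, fun y hy => ?_, fun y hy y' hy' => ?_,
    fun y hy y' hy' => ?_⟩
  · exact (b1 y hy).trans ((le_max_left _ _).trans (le_max_left _ _))
  · have h := hKc.norm_image_sub_le_of_norm_fderiv_le (𝕜 := ℝ) (f := fderiv ℝ G) (C := C₂)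
      (fun x hx => (hat1 x hx).differentiableAt (by simp)) b2 hy' hy
    refine h.trans ?_
    rw [norm_sub_rev y y']
    gcongr
    exact (le_max_right _ _).trans (le_max_left _ _)
  · have h := hKc.norm_image_sub_le_of_norm_fderiv_le (𝕜 := ℝ) (f := G) (C := C₁)
      hd b1 hy' hy
    refine h.trans ?_
    rw [norm_sub_rev y y']
    gcongr
    exact (le_max_left _ _).trans (le_max_left _ _)

lemma exists_lower [FiniteDimensional ℝ E] {T : E → E →L[ℝ] W} {K : Set E} (hK : IsCompact K)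
    (hT : ContinuousOn T K) (hinj : ∀ y ∈ K, ∀ a, T y a = 0 → a = 0) :
    ∃ c : ℝ, 0 < c ∧ ∀ y ∈ K, ∀ a, c * ‖a‖ ≤ ‖T y a‖ := by
  have : ProperSpace E := FiniteDimensional.proper ℝ E
  have hS : IsCompact (K ×ˢ sphere (0:E) 1) := hK.prod (isCompact_sphere 0 1)
  have hcont : ContinuousOn (fun p : E × E => ‖T p.1 p.2‖) (K ×ˢ sphere (0:E) 1) := by
    refine ContinuousOn.norm ?_
    have h1 : ContinuousOn (fun p : E × E => (T p.1, p.2)) (K ×ˢ sphere (0:E) 1) :=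
      (hT.comp continuousOn_fst fun p hp => hp.1).prodMk continuousOn_snd
    exact (isBoundedBilinearMap_apply (𝕜 := ℝ) (E := E) (F := W)).continuous.comp_continuousOn h1
  have key : ∃ c : ℝ, 0 < c ∧ ∀ p ∈ K ×ˢ sphere (0:E) 1, c ≤ ‖T p.1 p.2‖ := by
    rcases (K ×ˢ sphere (0:E) 1).eq_empty_or_nonempty with h | h
    · exact ⟨1, one_pos, fun p hp => by rw [h] at hp; exact absurd hp (notMem_empty p)⟩
    · obtain ⟨p, hp, hmin⟩ := hS.exists_isMinOn h hcont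
      refine ⟨‖T p.1 p.2‖, ?_, fun q hq => hmin hq⟩
      rw [norm_pos_iff]
      intro h0
      have h1 := hinj p.1 hp.1 p.2 h0
      have h2 : ‖p.2‖ = 1 := by simpa using hp.2
      rw [h1, norm_zero] at h2
      exact zero_ne_one h2
  obtain ⟨c, hc, hcb⟩ := key
  refine ⟨c, hc, fun y hy a => ?_⟩
  rcases eq_or_ne a 0 with rfl | ha
  · simp
  · have hna : ‖a‖ ≠ 0 := norm_ne_zero_iff.2 ha
    have h1 := hcb (y, ‖a‖⁻¹ • a) ⟨hy, by simp [norm_smul, hna]⟩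
    simp only [map_smul, norm_smul, norm_inv, norm_norm] at h1
    rw [inv_mul_eq_div, le_div_iff₀ (norm_pos_iff.2 ha)] at h1
    exact h1

end Pool.Agent.H75.PR
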