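import Mathlib

/-! Local calculus for isometries of pseudo-Riemannian metrics: the second derivative of an isometry
is controlled by its one-jet, and one-jets close to the identity propagate. -/

open scoped Topology ContDiff
open Set Filter

noncomputable section

set_option maxSynthPendingDepth 3

namespace Pool.Agent.H75.PR

variable {E : Type*} [NormedAddCommGroup E] [NormedSpace ℝ E]

/-- the derivative of the invariance equation -/
lemma deriv_inv {G : E → E →L[ℝ] E →L[ℝ] ℝ} {f : E → E} {z : E}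
    (hGz : DifferentiableAt ℝ G z) (hGf : DifferentiableAt ℝ G (f z))
    (hf : ContDiffAt ℝ 2 f z)
    (hinv : ∀ᶠ y in 𝓝 z, ∀ u v, G (f y) (fderiv ℝ f y u) (fderiv ℝ f y v) = G y u v)
    (w u v : E) :
    G (f z) (fderiv ℝ (fderiv ℝ f) z w u) (fderiv ℝ f z v) +
      G (f z) (fderiv ℝ f z u) (fderiv ℝ (fderiv ℝ f) z w v) =
    fderiv ℝ G z w u v -
      fderiv ℝ G (f z) (fderiv ℝ f z w) (fderiv ℝ f z u) (fderiv ℝ f z v) := by
  have hfd : HasFDerivAt f (fderiv ℝ f z) z := (hf.differentiableAt (by norm_num)).hasFDerivAt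
  have hA : HasFDerivAt (fderiv ℝ f) (fderiv ℝ (fderiv ℝ f) z) z :=
    ((hf.fderiv_right (m := 1) (by norm_num)).differentiableAt (by norm_num)).hasFDerivAt
  have hAu : ∀ u : E, HasFDerivAt (fun y => fderiv ℝ f y u)
      ((ContinuousLinearMap.apply ℝ E u).comp (fderiv ℝ (fderiv ℝ f) z)) z := fun u =>
    (ContinuousLinearMap.apply ℝ E u).hasFDerivAt.comp z hA
  have hG1 : HasFDerivAt (fun y => G (f y)) ((fderiv ℝ G (f z)).comp (fderiv ℝ f z)) z :=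
    HasFDerivAt.comp z (g := G) (f := f) hGf.hasFDerivAt hfd
  have h1 := (hG1.clm_apply (hAu u)).clm_apply (hAu v)
  have h2 : HasFDerivAt (fun y => G y u v)
      ((ContinuousLinearMap.apply ℝ ℝ v).comp
        ((ContinuousLinearMap.apply ℝ (E →L[ℝ] ℝ) u).comp (fderiv ℝ G z))) z :=
    (ContinuousLinearMap.apply ℝ ℝ v).hasFDerivAt.comp z
      ((ContinuousLinearMap.apply ℝ (E →L[ℝ] ℝ) u).hasFDerivAt.comp z hGz.hasFDerivAt)
  have h3 := h1.congr_of_eventuallyEq (f₁ := fun y => G y u v) (by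
    filter_upwards [hinv] with y hy
    exact (hy u v).symm)
  have h4 := DFunLike.congr_fun (h3.unique h2) w
  simp only [add_apply, ContinuousLinearMap.comp_apply,
      ContinuousLinearMap.flip_apply, ContinuousLinearMap.apply_apply] at h4
  linarith

/-- the Koszul formula for the second derivative of an isometry -/
lemma koszul {G : E → E →L[ℝ] E →L[ℝ] ℝ} {f : E → E} {z : E}
    (hGz : DifferentiableAt ℝ G z) (hGf : DifferentiableAt ℝ G (f z))
    (hf : ContDiffAt ℝ 2 f z) (hsymm : ∀ u v, G (f z) u v = G (f z) v u)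
    (hinv : ∀ᶠ y in 𝓝 z, ∀ u v, G (f y) (fderiv ℝ f y u) (fderiv ℝ f y v) = G y u v)
    {S : E → E → E → ℝ} (hS : ∀ w u v, S w u v = fderiv ℝ G z w u v -
      fderiv ℝ G (f z) (fderiv ℝ f z w) (fderiv ℝ f z u) (fderiv ℝ f z v))
    (w u v : E) :
    2 * G (f z) (fderiv ℝ (fderiv ℝ f) z w u) (fderiv ℝ f z v) =
      S w u v + S u w v - S v w u := by
  have hs : ∀ a b, fderiv ℝ (fderiv ℝ f) z a b = fderiv ℝ (fderiv ℝ f) z b a := by
    intro a b
    have := hf.isSymmSndFDerivAt (by simp)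
    exact this a b
  have key := deriv_inv hGz hGf hf hinv
  rw [hS, hS, hS, ← key w u v, ← key u w v, ← key v w u, hs u w, hs v w, hs v u]
  rw [hsymm (fderiv ℝ f z u) (fderiv ℝ (fderiv ℝ f) z w v),
    hsymm (fderiv ℝ f z w) (fderiv ℝ (fderiv ℝ f) z u v)]
  ring

/-- the second derivative of an isometry whose one-jet is close to the identity is small -/
lemma hess_bound {G : E → E →L[ℝ] E →L[ℝ] ℝ} {f : E → E} {z : E}
    (hGz : DifferentiableAt ℝ G z) (hGf : DifferentiableAt ℝ G (f z))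
    (hf : ContDiffAt ℝ 2 f z) (hsymm : ∀ u v, G (f z) u v = G (f z) v u)
    (hinv : ∀ᶠ y in 𝓝 z, ∀ u v, G (f y) (fderiv ℝ f y u) (fderiv ℝ f y v) = G y u v)
    {C c : ℝ} (hc : 0 < c) (hC : 0 ≤ C) (h1 : ‖fderiv ℝ G (f z)‖ ≤ C)
    (h2 : ‖fderiv ℝ G z - fderiv ℝ G (f z)‖ ≤ C * ‖f z - z‖)
    (h3 : ∀ a, c * ‖a‖ ≤ ‖G (f z) a‖)
    (hA : ‖fderiv ℝ f z - ContinuousLinearMap.id ℝ E‖ ≤ 1 / 2) :
    ‖fderiv ℝ (fderiv ℝ f) z‖ ≤
      24 * C / c * (‖f z - z‖ + ‖fderiv ℝ f z - ContinuousLinearMap.id ℝ E‖) := by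
  set A := fderiv ℝ f z with hAdef
  set D := A - ContinuousLinearMap.id ℝ E with hD
  set H := fderiv ℝ (fderiv ℝ f) z with hH
  set ε := ‖f z - z‖ + ‖D‖ with hε
  have hε0 : 0 ≤ ε := by positivity
  have hAapp : ∀ u, A u = u + D u := by intro u; simp [hD]
  have hDn : ∀ u, ‖D u‖ ≤ ‖D‖ * ‖u‖ := fun u => D.le_opNorm u
  have hAn : ∀ u, ‖A u‖ ≤ 2 * ‖u‖ := by
    intro u
    rw [hAapp]
    calc ‖u + D u‖ ≤ ‖u‖ + ‖D u‖ := norm_add_le _ _
      _ ≤ ‖u‖ + ‖D‖ * ‖u‖ := by gcongr; exact hDn u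
      _ ≤ ‖u‖ + 1 / 2 * ‖u‖ := by gcongr
      _ ≤ 2 * ‖u‖ := by linarith [norm_nonneg u]
  have tri : ∀ (T : E →L[ℝ] E →L[ℝ] E →L[ℝ] ℝ) (a b d : E), |T a b d| ≤ ‖T‖ * ‖a‖ * ‖b‖ * ‖d‖ := by
    intro T a b d
    rw [← Real.norm_eq_abs]
    calc ‖T a b d‖ ≤ ‖T a b‖ * ‖d‖ := (T a b).le_opNorm d
      _ ≤ (‖T a‖ * ‖b‖) * ‖d‖ := by gcongr; exact (T a).le_opNorm b
      _ ≤ ((‖T‖ * ‖a‖) * ‖b‖) * ‖d‖ := by gcongr; exact T.le_opNorm a
  set S : E → E → E → ℝ := fun w u v => fderiv ℝ G z w u v -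
      fderiv ℝ G (f z) (A w) (A u) (A v) with hS
  have hSb : ∀ w u v, |S w u v| ≤ 8 * C * ε * (‖w‖ * ‖u‖ * ‖v‖) := by
    intro w u v
    have e1 : S w u v = (fderiv ℝ G z - fderiv ℝ G (f z)) w u v -
        (fderiv ℝ G (f z) (D w) u v + fderiv ℝ G (f z) (A w) (D u) v +
          fderiv ℝ G (f z) (A w) (A u) (D v)) := by
      have a1 : D w = A w - w := by simp [hD]
      have a2 : D u = A u - u := by simp [hD]
      have a3 : D v = A v - v := by simp [hD]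
      rw [a1, a2, a3]
      simp only [hS, map_sub, sub_apply]
      ring
    have b0 : |(fderiv ℝ G z - fderiv ℝ G (f z)) w u v| ≤ C * ε * (‖w‖ * ‖u‖ * ‖v‖) := by
      refine (tri _ w u v).trans ?_
      have : ‖fderiv ℝ G z - fderiv ℝ G (f z)‖ ≤ C * ε :=
        h2.trans (by gcongr; simp [hε])
      calc ‖fderiv ℝ G z - fderiv ℝ G (f z)‖ * ‖w‖ * ‖u‖ * ‖v‖
          ≤ C * ε * ‖w‖ * ‖u‖ * ‖v‖ := by gcongr
        _ = _ := by ring
    have hDε : ‖D‖ ≤ ε := by simp [hε]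
    have b1 : |fderiv ℝ G (f z) (D w) u v| ≤ C * ε * (‖w‖ * ‖u‖ * ‖v‖) := by
      refine (tri _ _ _ _).trans ?_
      calc ‖fderiv ℝ G (f z)‖ * ‖D w‖ * ‖u‖ * ‖v‖ ≤ C * (ε * ‖w‖) * ‖u‖ * ‖v‖ := by
            gcongr
            exact (hDn w).trans (by gcongr)
        _ = _ := by ring
    have b2 : |fderiv ℝ G (f z) (A w) (D u) v| ≤ 2 * C * ε * (‖w‖ * ‖u‖ * ‖v‖) := by
      refine (tri _ _ _ _).trans ?_
      calc ‖fderiv ℝ G (f z)‖ * ‖A w‖ * ‖D u‖ * ‖v‖ ≤ C * (2 * ‖w‖) * (ε * ‖u‖) * ‖v‖ := by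
            gcongr
            · exact hAn w
            · exact (hDn u).trans (by gcongr)
        _ = _ := by ring
    have b3 : |fderiv ℝ G (f z) (A w) (A u) (D v)| ≤ 4 * C * ε * (‖w‖ * ‖u‖ * ‖v‖) := by
      refine (tri _ _ _ _).trans ?_
      calc ‖fderiv ℝ G (f z)‖ * ‖A w‖ * ‖A u‖ * ‖D v‖ ≤ C * (2 * ‖w‖) * (2 * ‖u‖) * (ε * ‖v‖) := by
            gcongr
            · exact hAn w
            · exact hAn u
            · exact (hDn v).trans (by gcongr)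
        _ = _ := by ring
    rw [e1]
    have c1 := abs_sub ((fderiv ℝ G z - fderiv ℝ G (f z)) w u v)
        (fderiv ℝ G (f z) (D w) u v + fderiv ℝ G (f z) (A w) (D u) v +
          fderiv ℝ G (f z) (A w) (A u) (D v))
    have c2 := abs_add_three (fderiv ℝ G (f z) (D w) u v) (fderiv ℝ G (f z) (A w) (D u) v)
          (fderiv ℝ G (f z) (A w) (A u) (D v))
    linarith
  have key := koszul hGz hGf hf hsymm hinv (S := S) (fun _ _ _ => rfl)
  have hT : ∀ w u v, |G (f z) (H w u) (A v)| ≤ 12 * C * ε * (‖w‖ * ‖u‖ * ‖v‖) := by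
    intro w u v
    have k := key w u v
    have s1 := abs_le.1 (hSb w u v)
    have s2 := abs_le.1 (hSb u w v)
    have s3 := abs_le.1 (hSb v w u)
    have e1 : ‖u‖ * ‖w‖ * ‖v‖ = ‖w‖ * ‖u‖ * ‖v‖ := by ring
    have e2 : ‖v‖ * ‖w‖ * ‖u‖ = ‖w‖ * ‖u‖ * ‖v‖ := by ring
    rw [e1] at s2
    rw [e2] at s3
    rw [abs_le]
    constructor <;> linarith
  have hGH : ∀ w u, ‖G (f z) (H w u)‖ ≤ 24 * C * ε * (‖w‖ * ‖u‖) := by
    intro w u
    have h4 : ‖G (f z) (H w u)‖ ≤ 12 * C * ε * (‖w‖ * ‖u‖) + 1 / 2 * ‖G (f z) (H w u)‖ := by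
      refine ContinuousLinearMap.opNorm_le_bound _ (by positivity) fun v => ?_
      have e1 : G (f z) (H w u) v = G (f z) (H w u) (A v) - G (f z) (H w u) (D v) := by
        rw [← map_sub, hAapp]; simp
      rw [e1]
      have e2 : ‖G (f z) (H w u) (D v)‖ ≤ ‖G (f z) (H w u)‖ * (1 / 2 * ‖v‖) :=
        ((G (f z) (H w u)).le_opNorm _).trans (by gcongr; exact (hDn v).trans (by gcongr))
      have e3 := hT w u v
      rw [← Real.norm_eq_abs] at e3
      calc _ ≤ ‖G (f z) (H w u) (A v)‖ + ‖G (f z) (H w u) (D v)‖ := norm_sub_le _ _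
        _ ≤ 12 * C * ε * (‖w‖ * ‖u‖ * ‖v‖) + ‖G (f z) (H w u)‖ * (1 / 2 * ‖v‖) := add_le_add e3 e2
        _ = _ := by ring
    linarith
  have hHb : ∀ w u, ‖H w u‖ ≤ 24 * C / c * ε * (‖w‖ * ‖u‖) := by
    intro w u
    have h5 := (h3 (H w u)).trans (hGH w u)
    have : ‖H w u‖ = (c * ‖H w u‖) / c := by field_simp
    rw [this]
    calc c * ‖H w u‖ / c ≤ 24 * C * ε * (‖w‖ * ‖u‖) / c := by gcongr
      _ = _ := by ring
  refine ContinuousLinearMap.opNorm_le_bound _ (by positivity) fun w => ?_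
  refine ContinuousLinearMap.opNorm_le_bound _ (by positivity) fun u => ?_
  refine (hHb w u).trans (le_of_eq ?_)
  ring

end Pool.Agent.H75.PR
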