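import Mathlib

/-! A continuation lemma of Gronwall type. -/

open scoped Topology
open Set Filter

noncomputable section

namespace Pool.Agent.H75.PR

/-- Gronwall's inequality on an interval on which the function is only known to be differentiable,
with the bound on the derivative, as long as it stays small. -/
lemma continuation {V : Type*} [NormedAddCommGroup V] [NormedSpace ℝ V]
    {F F' : ℝ → V} {D : Set ℝ} {C η : ℝ} (hC : 0 ≤ C) (hD0 : (0:ℝ) ∈ D)
    (hcl : IsClosed (D ∩ Icc (0:ℝ) 1))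
    (hder : ∀ s ∈ D ∩ Icc (0:ℝ) 1, HasDerivAt F (F' s) s)
    (hb : ∀ s ∈ D ∩ Icc (0:ℝ) 1, ‖F s‖ ≤ η → ‖F' s‖ ≤ C * ‖F s‖)
    (hop : ∀ s ∈ D ∩ Icc (0:ℝ) 1, ‖F s‖ < η → D ∈ 𝓝 s)
    (h0 : ‖F 0‖ * Real.exp C < η) :
    ∀ s ∈ Icc (0:ℝ) 1, s ∈ D ∧ ‖F s‖ ≤ ‖F 0‖ * Real.exp C := by
  have h01 : (0:ℝ) ∈ Icc (0:ℝ) 1 := ⟨le_rfl, zero_le_one⟩
  have hF0 : ‖F 0‖ ≤ η := by
    have h1 : 1 ≤ Real.exp C := Real.one_le_exp hC
    nlinarith [norm_nonneg (F 0)]
  set P : Set ℝ := (D ∩ Icc (0:ℝ) 1) ∩ F ⁻¹' {v | ‖v‖ ≤ η} with hP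
  have hPc : IsClosed P := by
    refine ContinuousOn.preimage_isClosed_of_isClosed ?_ hcl
      (isClosed_le continuous_norm continuous_const)
    exact fun s hs => (hder s hs).continuousAt.continuousWithinAt
  have h0P : (0:ℝ) ∈ P := ⟨⟨hD0, h01⟩, hF0⟩
  set S : Set ℝ := {s | Icc 0 s ⊆ P} with hS
  have gron : ∀ x ∈ Icc (0:ℝ) 1, Icc 0 x ⊆ P → ‖F x‖ ≤ ‖F 0‖ * Real.exp C := by
    intro x hx hxP
    have h1 := norm_le_gronwallBound_of_norm_deriv_right_le (f := F) (f' := F') (δ := ‖F 0‖)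
      (K := C) (ε := 0) (a := 0) (b := x)
      (fun s hs => (hder s (hxP hs).1).continuousAt.continuousWithinAt)
      (fun s hs => (hder s (hxP ⟨hs.1, hs.2.le⟩).1).hasDerivWithinAt) le_rfl
      (fun s hs => by
        rw [add_zero]
        exact hb s (hxP ⟨hs.1, hs.2.le⟩).1 (hxP ⟨hs.1, hs.2.le⟩).2) x ⟨hx.1, le_rfl⟩
    rw [gronwallBound_ε0, sub_zero] at h1
    refine h1.trans ?_
    have h2 : C * x ≤ C := by nlinarith [hx.2]
    gcongr
  have hSc : IsClosed (S ∩ Icc (0:ℝ) 1) := by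
    rw [← closure_subset_iff_isClosed]
    intro s hs
    have hs1 : s ∈ Icc (0:ℝ) 1 := by
      have : s ∈ closure (Icc (0:ℝ) 1) := closure_mono inter_subset_right hs
      rwa [isClosed_Icc.closure_eq] at this
    have h1 : ∀ s' ∈ Ico 0 s, s' ∈ P := by
      intro s' hs'
      have h2 : (Ioi s' ∩ (S ∩ Icc (0:ℝ) 1)).Nonempty :=
        mem_closure_iff.1 hs (Ioi s') isOpen_Ioi hs'.2
      obtain ⟨s'', h3, h4, h5⟩ := h2
      exact h4 ⟨hs'.1, le_of_lt h3⟩
    refine ⟨?_, hs1⟩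
    intro s' hs'
    rcases hs'.2.eq_or_lt with h | h
    · rcases hs'.1.eq_or_lt with h' | h'
      · rw [← h']; exact h0P
      · have h6 : s' ∈ closure (Ico 0 s) := by
          rw [closure_Ico (by rw [← h]; exact h'.ne), h]
          exact ⟨hs1.1, le_rfl⟩
        have h7 : closure (Ico 0 s) ⊆ P := by
          rw [← hPc.closure_eq]
          exact closure_mono h1
        exact h7 h6
    · exact h1 s' ⟨hs'.1, h⟩
  have hmain : Icc (0:ℝ) 1 ⊆ S := by
    refine hSc.Icc_subset_of_forall_exists_gt ?_ ?_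
    · intro s hs
      have : s = 0 := le_antisymm hs.2 hs.1
      rw [this]; exact h0P
    · rintro x ⟨hxS, hx⟩ y hy
      have hx1 : x ∈ Icc (0:ℝ) 1 := ⟨hx.1, hx.2.le⟩
      have hxP : x ∈ P := hxS ⟨hx.1, le_rfl⟩
      have h2 : ‖F x‖ < η := lt_of_le_of_lt (gron x hx1 hxS) h0
      have h3 := hop x hxP.1 h2
      have h4 : ∀ᶠ s in 𝓝 x, ‖F s‖ < η :=
        (hder x hxP.1).continuousAt.norm.eventually (gt_mem_nhds h2)
      obtain ⟨ε, hε, hε2⟩ := Metric.eventually_nhds_iff.1 (h4.and h3)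
      refine ⟨min (min (x + ε / 2) y) 1, ?_, ?_, ?_⟩
      · intro s hs
        by_cases hsx : s ≤ x
        · exact hxS ⟨hs.1, hsx⟩
        · push Not at hsx
          have h5 : s ≤ x + ε / 2 := hs.2.trans ((min_le_left _ _).trans (min_le_left _ _))
          have h6 : s ≤ 1 := hs.2.trans (min_le_right _ _)
          have h7 := hε2 (y := s) (by rw [Real.dist_eq, abs_of_pos (by linarith)]; linarith)
          exact ⟨⟨h7.2, hs.1, h6⟩, h7.1.le⟩
      · exact lt_min (lt_min (by linarith) hy) hx.2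
      · exact (min_le_left _ _).trans (min_le_right _ _)
  intro s hs
  have h1 := hmain hs
  exact ⟨(h1 ⟨hs.1, le_rfl⟩).1.1, gron s hs h1⟩

end Pool.Agent.H75.PR
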