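import Mathlib
import Pool.Agent.H75.PR.Calc
import Pool.Agent.H75.PR.Ode

/-! Propagation of one-jets close to the identity in a chart. -/

open scoped Topology ContDiff
open Set Filter Metric

noncomputable section

set_option maxSynthPendingDepth 3

namespace Pool.Agent.H75.PR

variable {E : Type*} [NormedAddCommGroup E] [NormedSpace ℝ E]

/-- the distance of the one-jet of `f` at `z` from the one-jet of the identity -/
def jet (f : E → E) (z : E) : E × (E →L[ℝ] E) :=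
  (f z - z, fderiv ℝ f z - ContinuousLinearMap.id ℝ E)

/-- bounds for the coefficients of a metric on a ball -/
structure MetricBound (G : E → E →L[ℝ] E →L[ℝ] ℝ) (c₀ : E) (r C c : ℝ) : Prop where
  hr : 0 < r
  hC : 0 ≤ C
  hc : 0 < c
  diff : ∀ y ∈ closedBall c₀ (3 * r), DifferentiableAt ℝ G y
  bound : ∀ y ∈ closedBall c₀ (3 * r), ‖fderiv ℝ G y‖ ≤ C
  lip : ∀ y ∈ closedBall c₀ (3 * r), ∀ y' ∈ closedBall c₀ (3 * r),
    ‖fderiv ℝ G y - fderiv ℝ G y'‖ ≤ C * ‖y' - y‖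
  nondeg : ∀ y ∈ closedBall c₀ (3 * r), ∀ a, c * ‖a‖ ≤ ‖G y a‖
  symm : ∀ y ∈ closedBall c₀ (3 * r), ∀ u v, G y u v = G y v u

/-- a partially defined isometry in a chart -/
structure LocIso (G : E → E →L[ℝ] E →L[ℝ] ℝ) (c₀ : E) (r : ℝ) (f : E → E) (D : Set E) : Prop where
  closed : IsClosed (D ∩ closedBall c₀ (2 * r))
  maps : ∀ z ∈ D ∩ closedBall c₀ (2 * r), f z ∈ closedBall c₀ (3 * r)
  smooth : ∀ z ∈ D ∩ closedBall c₀ (2 * r), ContDiffAt ℝ 2 f z
  inv : ∀ z ∈ D ∩ closedBall c₀ (2 * r), ∀ᶠ y in 𝓝 z, ∀ u v,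
    G (f y) (fderiv ℝ f y u) (fderiv ℝ f y v) = G y u v
  op : ∀ z ∈ D ∩ closedBall c₀ (2 * r), f z ∈ ball c₀ (3 * r) → D ∈ 𝓝 z

/-- **Propagation of one-jets close to the identity.** -/
theorem propagate {G : E → E →L[ℝ] E →L[ℝ] ℝ} {c₀ : E} {r C c : ℝ} (hG : MetricBound G c₀ r C c) :
    ∃ L : ℝ, 1 ≤ L ∧ ∃ η > 0, ∀ (f : E → E) (D : Set E), LocIso G c₀ r f D →
      ∀ y₀ ∈ D ∩ closedBall c₀ (2 * r), ‖jet f y₀‖ < η → ∀ y₁ ∈ closedBall c₀ (2 * r),
        y₁ ∈ D ∧ ‖jet f y₁‖ ≤ L * ‖jet f y₀‖ := by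
  have hr := hG.hr
  have hC := hG.hC
  have hc := hG.hc
  set C' : ℝ := (1 + 48 * C / c) * (4 * r) with hC'
  have hC'0 : 0 ≤ C' := by positivity
  have hexp : 1 ≤ Real.exp C' := Real.one_le_exp hC'0
  set η : ℝ := min (r / 2) (1 / 2) with hη
  have hη0 : 0 < η := by positivity
  refine ⟨Real.exp C', hexp, η / Real.exp C', by positivity, ?_⟩
  rintro f D hf y₀ ⟨hy₀D, hy₀⟩ hj y₁ hy₁
  set w := y₁ - y₀ with hw
  have hwn : ‖w‖ ≤ 4 * r := by
    have h1 : dist y₁ y₀ ≤ dist y₁ c₀ + dist y₀ c₀ := dist_triangle_right _ _ _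
    rw [mem_closedBall] at hy₀ hy₁
    rw [hw, ← dist_eq_norm]
    linarith
  set z : ℝ → E := fun s => y₀ + s • w with hz
  have hzK : ∀ s ∈ Icc (0:ℝ) 1, z s ∈ closedBall c₀ (2 * r) := by
    intro s hs
    have h1 := (convex_closedBall c₀ (2 * r)).add_smul_sub_mem hy₀ hy₁ hs
    exact h1
  have hzc : Continuous z := by fun_prop
  have hzd : ∀ s, HasDerivAt z w s := by
    intro s
    have h1 : HasDerivAt (fun s : ℝ => s • w) ((1:ℝ) • w) s := (hasDerivAt_id s).smul_const w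
    rw [one_smul] at h1
    exact h1.const_add y₀
  set F : ℝ → E × (E →L[ℝ] E) := fun s => jet f (z s) with hF
  set F' : ℝ → E × (E →L[ℝ] E) := fun s =>
    (fderiv ℝ f (z s) w - w, fderiv ℝ (fderiv ℝ f) (z s) w) with hF'
  set DD : Set ℝ := z ⁻¹' D with hDD
  have hmem : ∀ s ∈ DD ∩ Icc (0:ℝ) 1, z s ∈ D ∩ closedBall c₀ (2 * r) :=
    fun s hs => ⟨hs.1, hzK s hs.2⟩
  have hcl : IsClosed (DD ∩ Icc (0:ℝ) 1) := by
    have h1 : DD ∩ Icc (0:ℝ) 1 = z ⁻¹' (D ∩ closedBall c₀ (2 * r)) ∩ Icc (0:ℝ) 1 := by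
      ext s
      constructor
      · intro hs; exact ⟨hmem s hs, hs.2⟩
      · intro hs; exact ⟨hs.1.1, hs.2⟩
    rw [h1]
    exact (hf.closed.preimage hzc).inter isClosed_Icc
  have hder : ∀ s ∈ DD ∩ Icc (0:ℝ) 1, HasDerivAt F (F' s) s := by
    intro s hs
    have hsm := hf.smooth _ (hmem s hs)
    have h1 : HasFDerivAt f (fderiv ℝ f (z s)) (z s) :=
      (hsm.differentiableAt (by norm_num)).hasFDerivAt
    have h2 : HasFDerivAt (fderiv ℝ f) (fderiv ℝ (fderiv ℝ f) (z s)) (z s) :=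
      ((hsm.fderiv_right (m := 1) (by norm_num)).differentiableAt (by norm_num)).hasFDerivAt
    have h3 : HasDerivAt (fun s => f (z s) - z s) (fderiv ℝ f (z s) w - w) s :=
      (h1.comp_hasDerivAt s (hzd s)).sub (hzd s)
    have h4 : HasDerivAt (fun s => fderiv ℝ f (z s) - ContinuousLinearMap.id ℝ E)
        (fderiv ℝ (fderiv ℝ f) (z s) w) s :=
      (h2.comp_hasDerivAt s (hzd s)).sub_const _
    exact h3.prodMk h4
  have hFs : ∀ s, ‖f (z s) - z s‖ ≤ ‖F s‖ ∧
      ‖fderiv ℝ f (z s) - ContinuousLinearMap.id ℝ E‖ ≤ ‖F s‖ := fun s =>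
    ⟨norm_fst_le (F s), norm_snd_le (F s)⟩
  have key := continuation (F := F) (F' := F') (D := DD) (C := C') (η := η) hC'0
    (by show z 0 ∈ D; simpa [hz] using hy₀D) hcl hder
    (by
      intro s hs hsη
      have hm := hmem s hs
      have hfz := hf.maps _ hm
      have hzK3 : z s ∈ closedBall c₀ (3 * r) :=
        closedBall_subset_closedBall (by linarith) hm.2
      obtain ⟨a1, a2⟩ := hFs s
      have hA : ‖fderiv ℝ f (z s) - ContinuousLinearMap.id ℝ E‖ ≤ 1 / 2 :=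
        a2.trans (hsη.trans (min_le_right _ _))
      have hb := hess_bound (hG.diff _ hzK3) (hG.diff _ hfz) (hf.smooth _ hm)
        (hG.symm _ hfz) (hf.inv _ hm) hc hC (hG.bound _ hfz)
        (hG.lip _ hzK3 _ hfz) (hG.nondeg _ hfz) hA
      have e1 : fderiv ℝ f (z s) w - w =
          (fderiv ℝ f (z s) - ContinuousLinearMap.id ℝ E) w := by simp
      have hb1 : ‖fderiv ℝ f (z s) w - w‖ ≤ ‖F s‖ * (4 * r) := by
        rw [e1]
        exact (ContinuousLinearMap.le_opNorm _ _).trans (by gcongr)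
      have hb2 : ‖fderiv ℝ (fderiv ℝ f) (z s) w‖ ≤ (48 * C / c * ‖F s‖) * (4 * r) := by
        refine (ContinuousLinearMap.le_opNorm _ _).trans ?_
        gcongr
        refine hb.trans ?_
        have : 24 * C / c * (‖f (z s) - z s‖ +
            ‖fderiv ℝ f (z s) - ContinuousLinearMap.id ℝ E‖) ≤
            24 * C / c * (‖F s‖ + ‖F s‖) := by gcongr
        refine this.trans (le_of_eq (by ring))
      have hn := norm_nonneg (F s)
      have hpos : 0 ≤ 48 * C / c * ‖F s‖ * (4 * r) := by positivity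
      have hpos2 : 0 ≤ ‖F s‖ * (4 * r) := by positivity
      have e2 : C' * ‖F s‖ = ‖F s‖ * (4 * r) + 48 * C / c * ‖F s‖ * (4 * r) := by
        rw [hC']; ring
      rw [e2]
      refine norm_prod_le_iff.2 ⟨?_, ?_⟩
      · exact hb1.trans (by linarith)
      · exact hb2.trans (by linarith))
    (by
      intro s hs hsη
      have hm := hmem s hs
      have h1 : f (z s) ∈ ball c₀ (3 * r) := by
        rw [mem_ball]
        have h2 : dist (f (z s)) (z s) < r := by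
          rw [dist_eq_norm]
          have := (hFs s).1.trans_lt hsη
          have h3 : η ≤ r / 2 := min_le_left _ _
          linarith
        have h3 := hm.2
        rw [mem_closedBall] at h3
        have h4 := dist_triangle (f (z s)) (z s) c₀
        linarith
      exact hzc.continuousAt.preimage_mem_nhds (hf.op _ hm h1))
    (by
      have h1 : F 0 = jet f y₀ := by simp [hF, hz]
      rw [h1]
      exact (lt_div_iff₀ (by positivity)).1 hj)
  obtain ⟨h1, h2⟩ := key 1 ⟨zero_le_one, le_rfl⟩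
  have e1 : z 1 = y₁ := by simp [hz, hw]
  have e0 : z 0 = y₀ := by simp [hz]
  refine ⟨?_, ?_⟩
  · have h3 : z 1 ∈ D := h1
    rwa [e1] at h3
  · have h3 : ‖jet f (z 1)‖ ≤ ‖jet f (z 0)‖ * Real.exp C' := h2
    rw [e1, e0, mul_comm] at h3
    exact h3

end Pool.Agent.H75.PR
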