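import Mathlib
import Pool.Graph.R_seed8.W671.WU11

/-! Pseudo-Riemannian metrics invariant under a flow: definitions. -/

open scoped Topology ContDiff Manifold
open Set Filter Pool.Agent.H826R2.WStmt Pool.Agent.W671.RStmt

noncomputable section

namespace Pool.Agent.H75.PRStmt

/-- bilinear forms on the vector space `E` -/
def Bil (E : Type*) [NormedAddCommGroup E] [NormedSpace ℝ E] : Type _ := E →L[ℝ] E →L[ℝ] ℝ

section

variable {E : Type*} [NormedAddCommGroup E] [NormedSpace ℝ E]
  {M : Type*} [TopologicalSpace M] [ChartedSpace E M]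

/-- value of a bilinear form on two vectors -/
def bev (b : Bil E) (u v : E) : ℝ := (show E →L[ℝ] E →L[ℝ] ℝ from b) u v

/-- `g`, given by a bilinear form on the tangent space at each point, is a pseudo-Riemannian metric
(of any signature): it is symmetric and nondegenerate at each point, and `v ↦ g(v, v)` is a smooth
function on the tangent bundle. -/
structure IsPseudoMetric [IsManifold 𝓘(ℝ, E) ∞ M] (g : M → Bil E) : Prop where
  symm : ∀ x u v, bev (g x) u v = bev (g x) v u
  nondeg : ∀ x u, (∀ v, bev (g x) u v = 0) → u = 0
  smooth : ContMDiff 𝓘(ℝ, E).tangent 𝓘(ℝ, ℝ) ∞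
    (fun v : TangentBundle 𝓘(ℝ, E) M => bev (g v.1) v.2 v.2)

/-- the time `t` maps of the flow `Φ` are isometries of `g` -/
def Preserves (Φ : M → ℝ → M) (g : M → Bil E) : Prop :=
  ∀ (t : ℝ) (x : M) (u v : E),
    bev (g (Φ x t)) (D (E := E) (E' := E) (fun y => Φ y t) x u)
      (D (E := E) (E' := E) (fun y => Φ y t) x v) = bev (g x) u v

/-- the symmetric bilinear form `b` is Lorentzian: it is negative on some vector `w` and positive
definite on the orthogonal complement of `w`. -/
def IsLorentz (b : Bil E) : Prop :=
  ∃ w, bev b w w < 0 ∧ ∀ u, u ≠ 0 → bev b u w = 0 → 0 < bev b u u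

/-- The derivatives of the time `t` maps of `Φ` at the point `x` are bounded along a sequence of
times `t` tending to infinity. Lengths are measured by means of an injective immersion of `M` in a
Euclidean space (on a compact manifold such immersions exist and it does not matter which one is
used). -/
def BoundedAlong (E : Type*) [NormedAddCommGroup E] [NormedSpace ℝ E]
    {M : Type*} [TopologicalSpace M] [ChartedSpace E M] (Φ : M → ℝ → M) (x : M) : Prop :=
  ∃ (n : ℕ) (e : M → EuclideanSpace ℝ (Fin n)), IsInjImmersion (E := E) e ∧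
    ∃ C : ℝ, ∃ᶠ t in atTop, ∀ v : E,
      ‖D (E := E) (E' := EuclideanSpace ℝ (Fin n)) e (Φ x t)
        (D (E := E) (E' := E) (fun y => Φ y t) x v)‖ ≤ C * ‖v‖

/-- at the point `x` the metric `g` is positive definite on the intersection of the contact
hyperplane `ker α` with the orthogonal complement of `R` -/
def PositiveAt (α : M → Cov E) (R : M → E) (g : M → Bil E) (x : M) : Prop :=
  ∀ u, u ≠ 0 → ev (α x) u = 0 → bev (g x) u (R x) = 0 → 0 < bev (g x) u u

end

end Pool.Agent.H75.PRStmt
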