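import Mathlib
import Pool.Agent.H75.PR.Stmt
import Pool.Agent.H75.PR.Bounds
import Pool.Agent.H75.PR.ChartProp

/-! Metrics, maps and immersions read in a chart. -/

open scoped Topology ContDiff Manifold
open Set Filter Metric Bundle Pool.Agent.H826R2.WStmt Pool.Agent.W671.RStmt
open Pool.Agent.H75.PRStmt

noncomputable section

set_option maxSynthPendingDepth 3
set_option linter.unusedSectionVars false

namespace Pool.Agent.H75.PR

universe u

variable {E : Type u} [NormedAddCommGroup E] [NormedSpace ℝ E] [FiniteDimensional ℝ E]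
  {M : Type*} [TopologicalSpace M] [ChartedSpace E M] [IsManifold 𝓘(ℝ, E) ∞ M]
  {F : Type*} [NormedAddCommGroup F] [NormedSpace ℝ F]

/-- the chain rule -/
lemma D_comp {E₁ E₂ E₃ : Type*} [NormedAddCommGroup E₁] [NormedSpace ℝ E₁]
    [NormedAddCommGroup E₂] [NormedSpace ℝ E₂] [NormedAddCommGroup E₃] [NormedSpace ℝ E₃]
    {N₁ N₂ N₃ : Type*} [TopologicalSpace N₁] [ChartedSpace E₁ N₁]
    [TopologicalSpace N₂] [ChartedSpace E₂ N₂] [TopologicalSpace N₃] [ChartedSpace E₃ N₃]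
    {f : N₂ → N₃} {h : N₁ → N₂} {x : N₁}
    (hf : MDifferentiableAt 𝓘(ℝ, E₂) 𝓘(ℝ, E₃) f (h x))
    (hh : MDifferentiableAt 𝓘(ℝ, E₁) 𝓘(ℝ, E₂) h x) :
    D (E := E₁) (E' := E₃) (f ∘ h) x =
      (D (E := E₂) (E' := E₃) f (h x)).comp (D (E := E₁) (E' := E₂) h x) :=
  mfderiv_comp x hf hh

lemma D_congr {E₁ E₂ : Type*} [NormedAddCommGroup E₁] [NormedSpace ℝ E₁]
    [NormedAddCommGroup E₂] [NormedSpace ℝ E₂]
    {N₁ N₂ : Type*} [TopologicalSpace N₁] [ChartedSpace E₁ N₁]
    [TopologicalSpace N₂] [ChartedSpace E₂ N₂] {f h : N₁ → N₂} {x : N₁} (hfh : f =ᶠ[𝓝 x] h) :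
    D (E := E₁) (E' := E₂) f x = D (E := E₁) (E' := E₂) h x := by
  unfold D
  exact hfh.mfderiv_eq

lemma D_eq_fderiv {E₁ E₂ : Type*} [NormedAddCommGroup E₁] [NormedSpace ℝ E₁]
    [NormedAddCommGroup E₂] [NormedSpace ℝ E₂] (f : E₁ → E₂) (x : E₁) :
    D (E := E₁) (E' := E₂) f x = fderiv ℝ f x := by
  unfold D
  exact mfderiv_eq_fderiv

/-- the chart at `p` -/
abbrev ch (E : Type*) [NormedAddCommGroup E] [NormedSpace ℝ E] {M : Type*} [TopologicalSpace M]
    [ChartedSpace E M] (p : M) : PartialEquiv M E := extChartAt 𝓘(ℝ, E) p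

/-- derivative of the inverse chart -/
abbrev Dsy (E : Type*) [NormedAddCommGroup E] [NormedSpace ℝ E] {M : Type*} [TopologicalSpace M]
    [ChartedSpace E M] (p : M) (y : E) : E →L[ℝ] E := D (E := E) (E' := E) (ch E p).symm y

/-- the bilinear form read in a chart -/
def cBil (g : M → Bil E) (p : M) (y : E) : E →L[ℝ] E →L[ℝ] ℝ :=
  ContinuousLinearMap.bilinearComp (show E →L[ℝ] E →L[ℝ] ℝ from g ((ch E p).symm y))
    (Dsy E p y) (Dsy E p y)

omit [FiniteDimensional ℝ E] [IsManifold 𝓘(ℝ, E) ∞ M] in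
lemma cBil_apply (g : M → Bil E) (p : M) (y u v : E) :
    cBil g p y u v = bev (g ((ch E p).symm y)) (Dsy E p y u) (Dsy E p y v) := rfl

omit [FiniteDimensional ℝ E] in
lemma mdiff_symm {p : M} {y : E} (hy : y ∈ (ch E p).target) :
    MDifferentiableAt 𝓘(ℝ, E) 𝓘(ℝ, E) (ch E p).symm y :=
  ((contMDiffOn_extChartAt_symm (n := ∞) p).contMDiffAt
    ((isOpen_extChartAt_target p).mem_nhds hy)).mdifferentiableAt (by simp)

omit [FiniteDimensional ℝ E] in
lemma mdiff_chart {p x : M} (hx : x ∈ (ch E p).source) :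
    MDifferentiableAt 𝓘(ℝ, E) 𝓘(ℝ, E) (ch E p) x :=
  (contMDiffAt_extChartAt' (n := ∞) (by rwa [extChartAt_source] at hx)).mdifferentiableAt (by simp)

/-- the derivatives of the chart and of its inverse are inverse to each other -/
lemma D_chart_symm {p : M} {y : E} (hy : y ∈ (ch E p).target) (v : E) :
    D (E := E) (E' := E) (ch E p) ((ch E p).symm y) (Dsy E p y v) = v := by
  have h1 := D_comp (f := ch E p) (h := (ch E p).symm) (x := y)
    (mdiff_chart ((ch E p).map_target hy)) (mdiff_symm hy)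
  have h2 : (ch E p) ∘ (ch E p).symm =ᶠ[𝓝 y] id := by
    filter_upwards [(isOpen_extChartAt_target p).mem_nhds hy] with z hz
    exact (ch E p).right_inv hz
  rw [D_congr h2] at h1
  have h3 := DFunLike.congr_fun h1 v
  have h4 : D (E := E) (E' := E) (id : E → E) y v = v := by
    rw [D_eq_fderiv, fderiv_id]; rfl
  exact h3.symm.trans h4

lemma D_symm_chart {p x : M} (hx : x ∈ (ch E p).source) (v : E) :
    Dsy E p (ch E p x) (D (E := E) (E' := E) (ch E p) x v) = v := by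
  have hy := (ch E p).map_source hx
  have hinj : Function.Injective (D (E := E) (E' := E) (ch E p) x) := by
    have h1 : Function.Surjective (D (E := E) (E' := E) (ch E p) x : E →ₗ[ℝ] E) := by
      intro w
      have h2 := D_chart_symm hy w
      rw [(ch E p).left_inv hx] at h2
      exact ⟨_, h2⟩
    exact LinearMap.injective_iff_surjective.2 h1
  apply hinj
  have h2 := D_chart_symm hy (D (E := E) (E' := E) (ch E p) x v)
  rw [(ch E p).left_inv hx] at h2
  exact h2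

lemma Dsy_injective {p : M} {y : E} (hy : y ∈ (ch E p).target) {v : E} (h : Dsy E p y v = 0) :
    v = 0 := by
  have h1 := D_chart_symm hy v
  rw [h, map_zero] at h1
  exact h1.symm

lemma contDiffOn_cBil_self {g : M → Bil E} (hg : IsPseudoMetric g) (p : M) (w : E) :
    ContDiffOn ℝ ∞ (fun y => cBil g p y w w) (ch E p).target := by
  rw [← contMDiffOn_iff_contDiffOn]
  intro y hy
  apply ContMDiffAt.contMDiffWithinAt
  have h1 : ContMDiffAt 𝓘(ℝ, E).tangent 𝓘(ℝ, E).tangent ∞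
      (tangentMap 𝓘(ℝ, E) 𝓘(ℝ, E) (extChartAt 𝓘(ℝ, E) p).symm)
        (⟨y, w⟩ : TangentBundle 𝓘(ℝ, E) E) :=
    Helper186.contMDiffAt_tangentMap (isOpen_extChartAt_target p) (contMDiffOn_extChartAt_symm p) hy
  have h2 : ContMDiffAt 𝓘(ℝ, E) 𝓘(ℝ, E).tangent ∞ (fun y : E =>
      (tangentMap 𝓘(ℝ, E) 𝓘(ℝ, E) (extChartAt 𝓘(ℝ, E) p).symm
        (⟨y, w⟩ : TangentBundle 𝓘(ℝ, E) E))) y :=
    ContMDiffAt.comp y h1 (Helper186.contMDiff_constSection w y)
  exact (hg.smooth _).comp y h2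

lemma contDiffOn_cBil {g : M → Bil E} (hg : IsPseudoMetric g) (p : M) :
    ContDiffOn ℝ ∞ (cBil g p) (ch E p).target := by
  rw [contDiffOn_clm_apply]
  intro u
  rw [contDiffOn_clm_apply]
  intro v
  have h1 : (fun y => cBil g p y u v) = fun y =>
      (cBil g p y (u + v) (u + v) - cBil g p y u u - cBil g p y v v) / 2 := by
    funext y
    have h2 : cBil g p y u v = cBil g p y v u := by
      rw [cBil_apply, cBil_apply, hg.symm]
    simp only [map_add, add_apply]
    rw [h2]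
    ring
  rw [h1]
  exact (((contDiffOn_cBil_self hg p (u + v)).sub (contDiffOn_cBil_self hg p u)).sub
    (contDiffOn_cBil_self hg p v)).div_const 2

lemma cBil_symm {g : M → Bil E} (hg : IsPseudoMetric g) (p : M) (y u v : E) :
    cBil g p y u v = cBil g p y v u := by
  rw [cBil_apply, cBil_apply, hg.symm]

lemma cBil_nondeg {g : M → Bil E} (hg : IsPseudoMetric g) {p : M} {y : E}
    (hy : y ∈ (ch E p).target) {u : E} (h : cBil g p y u = 0) : u = 0 := by
  apply Dsy_injective hy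
  apply hg.nondeg ((ch E p).symm y)
  intro v
  have h1 := D_symm_chart ((ch E p).map_target hy) v
  rw [(ch E p).right_inv hy] at h1
  rw [← h1, ← cBil_apply, h]
  rfl

/-- a smooth isometry of `g` -/
structure Iso (g : M → Bil E) (f : M → M) : Prop where
  smooth : ContMDiff 𝓘(ℝ, E) 𝓘(ℝ, E) ∞ f
  inv : ∀ x u v, bev (g (f x)) (D (E := E) (E' := E) f x u) (D (E := E) (E' := E) f x v) =
    bev (g x) u v

/-- the map `f` read in the chart at `p` -/
def hat (E : Type*) [NormedAddCommGroup E] [NormedSpace ℝ E] {M : Type*} [TopologicalSpace M]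
    [ChartedSpace E M] (p : M) (f : M → M) : E → E := (ch E p) ∘ f ∘ (ch E p).symm

section hat

variable {p : M} {f : M → M} {y : E}

lemma hat_eventually (hf : ContMDiff 𝓘(ℝ, E) 𝓘(ℝ, E) ∞ f) (hy : y ∈ (ch E p).target)
    (hs : f ((ch E p).symm y) ∈ (ch E p).source) :
    ∀ᶠ z in 𝓝 y, z ∈ (ch E p).target ∧ f ((ch E p).symm z) ∈ (ch E p).source := by
  have h1 : ContinuousAt (fun z => f ((ch E p).symm z)) y :=
    hf.continuous.continuousAt.comp (mdiff_symm hy).continuousAt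
  filter_upwards [(isOpen_extChartAt_target p).mem_nhds hy,
    h1.preimage_mem_nhds ((isOpen_extChartAt_source p).mem_nhds hs)] with z h2 h3
  exact ⟨h2, h3⟩

lemma contDiffAt_hat (hf : ContMDiff 𝓘(ℝ, E) 𝓘(ℝ, E) ∞ f) (hy : y ∈ (ch E p).target)
    (hs : f ((ch E p).symm y) ∈ (ch E p).source) : ContDiffAt ℝ ∞ (hat E p f) y := by
  rw [← contMDiffAt_iff_contDiffAt]
  have h1 : ContMDiffAt 𝓘(ℝ, E) 𝓘(ℝ, E) ∞ (ch E p) (f ((ch E p).symm y)) :=
    contMDiffAt_extChartAt' (by rwa [extChartAt_source] at hs)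
  have h2 : ContMDiffAt 𝓘(ℝ, E) 𝓘(ℝ, E) ∞ (ch E p).symm y :=
    (contMDiffOn_extChartAt_symm (n := ∞) p).contMDiffAt
      ((isOpen_extChartAt_target p).mem_nhds hy)
  exact ContMDiffAt.comp y h1 (ContMDiffAt.comp y (hf _) h2)

/-- `Dsy` intertwines the derivative of `f` and of its expression in the chart -/
lemma Dsy_hat (hf : ContMDiff 𝓘(ℝ, E) 𝓘(ℝ, E) ∞ f) (hy : y ∈ (ch E p).target)
    (hs : f ((ch E p).symm y) ∈ (ch E p).source) (v : E) :
    Dsy E p (hat E p f y) (fderiv ℝ (hat E p f) y v) =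
      D (E := E) (E' := E) f ((ch E p).symm y) (Dsy E p y v) := by
  have h0 : hat E p f y ∈ (ch E p).target := (ch E p).map_source hs
  have hd : MDifferentiableAt 𝓘(ℝ, E) 𝓘(ℝ, E) (hat E p f) y :=
    ((contDiffAt_hat hf hy hs).differentiableAt (by simp)).mdifferentiableAt
  have h1 := D_comp (f := (ch E p).symm) (h := hat E p f) (x := y) (mdiff_symm h0) hd
  have h2 : (ch E p).symm ∘ hat E p f =ᶠ[𝓝 y] f ∘ (ch E p).symm := by
    filter_upwards [hat_eventually hf hy hs] with z hz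
    exact (ch E p).left_inv hz.2
  rw [D_congr h2, D_comp (hf.mdifferentiableAt (by simp)) (mdiff_symm hy)] at h1
  have h3 := DFunLike.congr_fun h1 v
  rw [← D_eq_fderiv]
  exact h3.symm

lemma symm_hat (hs : f ((ch E p).symm y) ∈ (ch E p).source) :
    (ch E p).symm (hat E p f y) = f ((ch E p).symm y) := (ch E p).left_inv hs

lemma hat_inv {g : M → Bil E} (hf : Iso g f) (hy : y ∈ (ch E p).target)
    (hs : f ((ch E p).symm y) ∈ (ch E p).source) (u v : E) :
    cBil g p (hat E p f y) (fderiv ℝ (hat E p f) y u) (fderiv ℝ (hat E p f) y v) =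
      cBil g p y u v := by
  rw [cBil_apply, cBil_apply, Dsy_hat hf.smooth hy hs, Dsy_hat hf.smooth hy hs, symm_hat hs,
    hf.inv]

/-- immersion read in a chart -/
lemma fderiv_imm {e : M → F} (he : ContMDiff 𝓘(ℝ, E) 𝓘(ℝ, F) ∞ e) (hy : y ∈ (ch E p).target)
    (v : E) : fderiv ℝ (e ∘ (ch E p).symm) y v =
      D (E := E) (E' := F) e ((ch E p).symm y) (Dsy E p y v) := by
  rw [← D_eq_fderiv, D_comp (he.mdifferentiableAt (by simp)) (mdiff_symm hy)]
  rfl

lemma contDiffOn_imm {e : M → F} (he : ContMDiff 𝓘(ℝ, E) 𝓘(ℝ, F) ∞ e) :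
    ContDiffOn ℝ ∞ (e ∘ (ch E p).symm) (ch E p).target := by
  rw [← contMDiffOn_iff_contDiffOn]
  exact he.comp_contMDiffOn (contMDiffOn_extChartAt_symm p)

end hat

end Pool.Agent.H75.PR
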