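import Mathlib
import Pool.Agent.H75.PR.Chart

/-! Isometries whose one-jet is close to the identity at one point are close to the identity in a
neighbourhood of uniform size. -/

open scoped Topology ContDiff Manifold
open Set Filter Metric Bundle Pool.Agent.H826R2.WStmt Pool.Agent.W671.RStmt
open Pool.Agent.H75.PRStmt

noncomputable section

set_option maxSynthPendingDepth 3
set_option linter.unusedSectionVars false

namespace Pool.Agent.H75.PR

universe u

variable {E : Type u} [NormedAddCommGroup E] [NormedSpace ℝ E] [FiniteDimensional ℝ E]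
  {M : Type*} [TopologicalSpace M] [ChartedSpace E M] [IsManifold 𝓘(ℝ, E) ∞ M]
  {F : Type*} [NormedAddCommGroup F] [NormedSpace ℝ F]

/-- the one-jet of `f` at `x` is close to the one-jet of the identity, as measured by `e` -/
def Near (E : Type*) [NormedAddCommGroup E] [NormedSpace ℝ E] {M : Type*} [TopologicalSpace M]
    [ChartedSpace E M] {F : Type*} [NormedAddCommGroup F] [NormedSpace ℝ F]
    (e : M → F) (f : M → M) (δ : ℝ) (x : M) : Prop :=
  ‖e (f x) - e x‖ ≤ δ ∧ ∀ v : E, ‖D (E := E) (E' := F) (e ∘ f) x v - D (E := E) (E' := F) e x v‖ ≤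
    δ * ‖D (E := E) (E' := F) e x v‖

lemma Near.mono {e : M → F} {f : M → M} {δ δ' : ℝ} {x : M} (h : Near E e f δ x) (hd : δ ≤ δ') :
    Near E e f δ' x :=
  ⟨h.1.trans hd, fun v => (h.2 v).trans (by gcongr)⟩

/-- constants for a chart -/
structure Box (g : M → Bil E) (e : M → F) (p : M) (r C c m L : ℝ) : Prop where
  sub : closedBall (ch E p p) (3 * r) ⊆ (ch E p).target
  met : MetricBound (cBil g p) (ch E p p) r C c
  hm : 0 < m
  hL : 0 ≤ L
  low : ∀ y ∈ closedBall (ch E p p) (3 * r), ∀ v,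
    m * ‖v‖ ≤ ‖fderiv ℝ (e ∘ (ch E p).symm) y v‖
  up : ∀ y ∈ closedBall (ch E p p) (3 * r), ‖fderiv ℝ (e ∘ (ch E p).symm) y‖ ≤ L
  lip : ∀ y ∈ closedBall (ch E p p) (3 * r), ∀ y' ∈ closedBall (ch E p p) (3 * r),
    ‖fderiv ℝ (e ∘ (ch E p).symm) y - fderiv ℝ (e ∘ (ch E p).symm) y'‖ ≤ L * ‖y' - y‖
  lip0 : ∀ y ∈ closedBall (ch E p p) (3 * r), ∀ y' ∈ closedBall (ch E p p) (3 * r),
    ‖(e ∘ (ch E p).symm) y - (e ∘ (ch E p).symm) y'‖ ≤ L * ‖y' - y‖

lemma exists_box {g : M → Bil E} (hg : IsPseudoMetric g) {e : M → F}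
    (he : IsInjImmersion (E := E) e) (p : M) : ∃ r C c m L : ℝ, Box g e p r C c m L := by
  have : ProperSpace E := FiniteDimensional.proper ℝ E
  have hO := isOpen_extChartAt_target (I := 𝓘(ℝ, E)) p
  obtain ⟨ε, hε, hsub⟩ := Metric.isOpen_iff.1 hO (ch E p p) (mem_extChartAt_target p)
  set r := ε / 4 with hr
  have hr0 : 0 < r := by positivity
  have hsub3 : closedBall (ch E p p) (3 * r) ⊆ (ch E p).target :=
    (closedBall_subset_ball (by rw [hr]; linarith)).trans hsub
  have hK : IsCompact (closedBall (ch E p p) (3 * r)) := isCompact_closedBall _ _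
  have hKc : Convex ℝ (closedBall (ch E p p) (3 * r)) := convex_closedBall _ _
  obtain ⟨C, hC, a1, a2, a3, -⟩ := exists_bounds hO (contDiffOn_cBil hg p) hK hKc hsub3
  obtain ⟨L, hL, b1, b2, b3, b4⟩ := exists_bounds hO (contDiffOn_imm (p := p) he.smooth) hK hKc hsub3
  obtain ⟨c, hc, hcb⟩ := exists_lower (T := cBil g p) hK
    ((contDiffOn_cBil hg p).continuousOn.mono hsub3)
    (fun y hy a ha => cBil_nondeg hg (hsub3 hy) ha)
  obtain ⟨m, hm, hmb⟩ := exists_lower (T := fderiv ℝ (e ∘ (ch E p).symm)) hK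
    (((contDiffOn_imm (p := p) he.smooth).continuousOn_fderiv_of_isOpen hO (by simp)).mono hsub3)
    (fun y hy a ha => by
      rw [fderiv_imm he.smooth (hsub3 hy)] at ha
      apply Dsy_injective (hsub3 hy)
      apply he.immersion ((ch E p).symm y)
      rw [ha, map_zero])
  exact ⟨r, C, c, m, L, hsub3, ⟨hr0, hC, hc, a1, a2, a3, hcb, fun y _ u v => cBil_symm hg p y u v⟩,
    hm, hL, hmb, b2, b3, b4⟩

/-- nearby values of `e` come from nearby points -/
lemma inv_cont [T2Space M] [CompactSpace M] {e : M → F} (he : IsInjImmersion (E := E) e) (p : M)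
    {K : Set M} (hK : IsCompact K) (hKs : K ⊆ (ch E p).source) {ε : ℝ} (hε : 0 < ε) :
    ∃ δ > 0, ∀ x ∈ K, ∀ x', ‖e x' - e x‖ ≤ δ → x' ∈ (ch E p).source ∧
      ‖ch E p x' - ch E p x‖ < ε := by
  set Q : Set (M × M) := ((ch E p).source ×ˢ (ch E p).source) ∩
    (fun q : M × M => ‖ch E p q.2 - ch E p q.1‖) ⁻¹' (Iio ε) with hQ
  have hso := isOpen_extChartAt_source (I := 𝓘(ℝ, E)) p
  have hQo : IsOpen Q := by
    refine ContinuousOn.isOpen_inter_preimage ?_ (hso.prod hso) isOpen_Iio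
    have h1 : ContinuousOn (fun q : M × M => ch E p q.2) ((ch E p).source ×ˢ (ch E p).source) :=
      (continuousOn_extChartAt (I := 𝓘(ℝ, E)) p).comp continuousOn_snd fun q hq => hq.2
    have h2 : ContinuousOn (fun q : M × M => ch E p q.1) ((ch E p).source ×ˢ (ch E p).source) :=
      (continuousOn_extChartAt (I := 𝓘(ℝ, E)) p).comp continuousOn_fst fun q hq => hq.1
    exact (h1.sub h2).norm
  have hB : IsCompact ((K ×ˢ (univ : Set M)) \ Q) := (hK.prod isCompact_univ).diff hQo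
  have hec : Continuous e := he.smooth.continuous
  have hcont : Continuous (fun q : M × M => ‖e q.2 - e q.1‖) := by fun_prop
  rcases ((K ×ˢ (univ : Set M)) \ Q).eq_empty_or_nonempty with h | h
  · refine ⟨1, one_pos, fun x hx x' _ => ?_⟩
    have h1 : (x, x') ∈ Q := by
      by_contra hq
      have : (x, x') ∈ (K ×ˢ (univ : Set M)) \ Q := ⟨⟨hx, mem_univ _⟩, hq⟩
      rw [h] at this
      exact this
    exact ⟨h1.1.2, h1.2⟩
  · obtain ⟨q, hq, hmin⟩ := hB.exists_isMinOn h hcont.continuousOn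
    have hpos : 0 < ‖e q.2 - e q.1‖ := by
      rw [norm_pos_iff, sub_ne_zero]
      intro h0
      have h1 := he.injective h0
      apply hq.2
      have h2 := hKs hq.1.1
      refine ⟨⟨h2, by rw [h1]; exact h2⟩, ?_⟩
      show ‖ch E p q.2 - ch E p q.1‖ < ε
      rw [h1, sub_self, norm_zero]
      exact hε
    refine ⟨‖e q.2 - e q.1‖ / 2, by positivity, fun x hx x' hxx => ?_⟩
    have h1 : (x, x') ∈ Q := by
      by_contra hq'
      have h2 := hmin (show (x, x') ∈ (K ×ˢ (univ : Set M)) \ Q from ⟨⟨hx, mem_univ _⟩, hq'⟩)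
      simp only [mem_ofPred_eq] at h2
      linarith
    exact ⟨h1.1.2, h1.2⟩

/-- the domain of the expression of `f` in the chart -/
def dom (p : M) (r : ℝ) (f : M → M) : Set E :=
  {z | z ∈ (ch E p).target ∧ f ((ch E p).symm z) ∈ (ch E p).symm '' closedBall (ch E p p) (3 * r)}

lemma locIso [T2Space M] {g : M → Bil E} {e : M → F} {p : M} {r C c m L : ℝ}
    (hb : Box g e p r C c m L) {f : M → M} (hf : Iso g f) :
    LocIso (cBil g p) (ch E p p) r (hat E p f) (dom p r f) := by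
  have : ProperSpace E := FiniteDimensional.proper ℝ E
  have hr := hb.met.hr
  have h23 : closedBall (ch E p p) (2 * r) ⊆ closedBall (ch E p p) (3 * r) :=
    closedBall_subset_closedBall (by linarith)
  have hL3 : IsClosed ((ch E p).symm '' closedBall (ch E p p) (3 * r)) :=
    ((isCompact_closedBall _ _).image_of_continuousOn
      ((continuousOn_extChartAt_symm (I := 𝓘(ℝ, E)) p).mono hb.sub)).isClosed
  have hdom : ∀ z ∈ dom p r f, z ∈ (ch E p).target ∧ f ((ch E p).symm z) ∈ (ch E p).source := by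
    rintro z ⟨h1, y, hy, h2⟩
    exact ⟨h1, by rw [← h2]; exact (ch E p).map_target (hb.sub hy)⟩
  refine ⟨?_, ?_, ?_, ?_, ?_⟩
  · have h1 : dom p r f ∩ closedBall (ch E p p) (2 * r) = closedBall (ch E p p) (2 * r) ∩
        (fun z => f ((ch E p).symm z)) ⁻¹' ((ch E p).symm '' closedBall (ch E p p) (3 * r)) := by
      ext z
      constructor
      · rintro ⟨h1, h2⟩; exact ⟨h2, h1.2⟩
      · rintro ⟨h1, h2⟩; exact ⟨⟨hb.sub (h23 h1), h2⟩, h1⟩
    rw [h1]
    refine ContinuousOn.preimage_isClosed_of_isClosed ?_ isClosed_closedBall hL3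
    exact hf.smooth.continuous.comp_continuousOn
      ((continuousOn_extChartAt_symm (I := 𝓘(ℝ, E)) p).mono (h23.trans hb.sub))
  · rintro z ⟨⟨h1, y, hy, h2⟩, h3⟩
    have h4 : hat E p f z = y := by
      show ch E p (f ((ch E p).symm z)) = y
      rw [← h2]
      exact (ch E p).right_inv (hb.sub hy)
    rw [h4]
    exact hy
  · rintro z ⟨h1, h2⟩
    exact (contDiffAt_hat hf.smooth (hdom z h1).1 (hdom z h1).2).of_le (by exact ENat.LEInfty.out)
  · rintro z ⟨h1, h2⟩
    filter_upwards [hat_eventually hf.smooth (hdom z h1).1 (hdom z h1).2] with y hy u v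
    exact hat_inv hf hy.1 hy.2 u v
  · rintro z ⟨h1, h2⟩ h3
    obtain ⟨ht, hs⟩ := hdom z h1
    have h4 := (contDiffAt_hat hf.smooth ht hs).continuousAt.preimage_mem_nhds
      (isOpen_ball.mem_nhds h3)
    filter_upwards [h4, hat_eventually hf.smooth ht hs] with y h5 h6
    refine ⟨h6.1, hat E p f y, ball_subset_closedBall h5, ?_⟩
    exact (ch E p).left_inv h6.2

/-- **Local propagation.** -/
theorem local_prop [T2Space M] [CompactSpace M] {g : M → Bil E} (hg : IsPseudoMetric g) {e : M → F}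
    (he : IsInjImmersion (E := E) e) (p : M) :
    ∃ V ∈ 𝓝 p, ∀ ε > 0, ∃ δ > 0, ∀ f : M → M, Iso g f → (∃ x ∈ V, Near E e f δ x) →
      ∀ x ∈ V, Near E e f ε x := by
  have : ProperSpace E := FiniteDimensional.proper ℝ E
  obtain ⟨r, C, c, m, L, hb⟩ := exists_box hg he p
  have hr := hb.met.hr
  have hm := hb.hm
  have hL := hb.hL
  have h23 : closedBall (ch E p p) (2 * r) ⊆ closedBall (ch E p p) (3 * r) :=
    closedBall_subset_closedBall (by linarith)
  obtain ⟨Λ, hΛ, η, hη, hprop⟩ := propagate hb.met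
  set V : Set M := (ch E p).source ∩ (ch E p) ⁻¹' ball (ch E p p) (2 * r) with hV
  have hVo : IsOpen V := (continuousOn_extChartAt (I := 𝓘(ℝ, E)) p).isOpen_inter_preimage
    (isOpen_extChartAt_source p) isOpen_ball
  have hpV : p ∈ V := ⟨mem_extChartAt_source p, mem_ball_self (by positivity)⟩
  refine ⟨V, hVo.mem_nhds hpV, fun ε hε => ?_⟩
  -- the sizes
  set ρ : ℝ := min (ε / (L + 1)) (ε * m / (2 * (L + 1))) with hρ
  have hρ0 : 0 < ρ := by positivity
  have hρ1 : L * ρ ≤ ε := by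
    have h1 : ρ ≤ ε / (L + 1) := min_le_left _ _
    rw [le_div_iff₀ (by positivity)] at h1
    nlinarith
  have hρ2 : 2 * L * ρ ≤ ε * m := by
    have h1 : ρ ≤ ε * m / (2 * (L + 1)) := min_le_right _ _
    rw [le_div_iff₀ (by positivity)] at h1
    nlinarith
  set κ : ℝ := min (ρ / Λ) (η / 2) with hκ
  have hΛ0 : 0 < Λ := by linarith
  have hκ0 : 0 < κ := by positivity
  set ε' : ℝ := min (min r κ) (κ * m / (2 * (L + 1))) with hε'
  have hε'0 : 0 < ε' := by positivity
  have hK2 : IsCompact ((ch E p).symm '' closedBall (ch E p p) (2 * r)) :=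
    (isCompact_closedBall _ _).image_of_continuousOn
      ((continuousOn_extChartAt_symm (I := 𝓘(ℝ, E)) p).mono (h23.trans hb.sub))
  obtain ⟨δ₁, hδ₁, hinv⟩ := inv_cont he p hK2 (by
    rintro _ ⟨y, hy, rfl⟩
    exact (ch E p).map_target (hb.sub (h23 hy))) hε'0
  refine ⟨min δ₁ ε', by positivity, ?_⟩
  rintro f hf ⟨x, hx, hn⟩ x' hx'
  set e' : E → F := e ∘ (ch E p).symm with he'
  -- the point `x` in the chart
  set y := ch E p x with hy
  have hyK : y ∈ closedBall (ch E p p) (2 * r) := ball_subset_closedBall hx.2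
  have hyx : (ch E p).symm y = x := (ch E p).left_inv hx.1
  obtain ⟨hs, hd⟩ := hinv x ⟨y, hyK, hyx⟩ (f x) (hn.1.trans (min_le_left _ _))
  have hht : hat E p f y = ch E p (f x) := by
    show ch E p (f ((ch E p).symm y)) = _
    rw [hyx]
  have hyt : y ∈ (ch E p).target := hb.sub (h23 hyK)
  have hs' : f ((ch E p).symm y) ∈ (ch E p).source := by rw [hyx]; exact hs
  have hdist : ‖hat E p f y - y‖ < ε' := by rw [hht]; exact hd
  have hhK : hat E p f y ∈ closedBall (ch E p p) (3 * r) := by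
    rw [mem_closedBall]
    have h1 : dist (hat E p f y) (ch E p p) ≤ dist (hat E p f y) y + dist y (ch E p p) :=
      dist_triangle _ _ _
    have h2 : dist (hat E p f y) y < ε' := by rw [dist_eq_norm]; exact hdist
    have h3 : ε' ≤ r := (min_le_left _ _).trans (min_le_left _ _)
    rw [mem_closedBall] at hyK
    linarith
  have hydom : y ∈ dom p r f := by
    refine ⟨hyt, hat E p f y, hhK, ?_⟩
    exact symm_hat hs'
  -- derivative of `e ∘ f`
  have hder : ∀ {z : E}, z ∈ (ch E p).target → f ((ch E p).symm z) ∈ (ch E p).source → ∀ v,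
      D (E := E) (E' := F) (e ∘ f) ((ch E p).symm z) (Dsy E p z v) =
        fderiv ℝ e' (hat E p f z) (fderiv ℝ (hat E p f) z v) := by
    intro z hz hzs v
    have h1 : hat E p f z ∈ (ch E p).target := (ch E p).map_source hzs
    rw [he', fderiv_imm he.smooth h1, Dsy_hat hf.smooth hz hzs, symm_hat hzs,
      D_comp (he.smooth.mdifferentiableAt (by simp)) (hf.smooth.mdifferentiableAt (by simp))]
    rfl
  set A := fderiv ℝ (hat E p f) y with hA
  have hε'κ : ε' ≤ κ := (min_le_left _ _).trans (min_le_right _ _)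
  have hjet : ‖jet (hat E p f) y‖ ≤ κ := by
    refine norm_prod_le_iff.2 ⟨(hdist.le).trans hε'κ, ?_⟩
    refine ContinuousLinearMap.opNorm_le_bound _ hκ0.le fun v => ?_
    have h1 : ‖fderiv ℝ e' (hat E p f y) (A v) - fderiv ℝ e' y v‖ ≤ ε' * (L * ‖v‖) := by
      have h2 := hn.2 (Dsy E p y v)
      rw [← hyx, hder hyt hs', ← fderiv_imm he.smooth hyt] at h2
      refine h2.trans ?_
      have h3 : min δ₁ ε' ≤ ε' := min_le_right _ _
      have h4 : ‖fderiv ℝ e' y v‖ ≤ L * ‖v‖ :=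
        ((fderiv ℝ e' y).le_opNorm v).trans (by gcongr; exact hb.up y (h23 hyK))
      gcongr
    have h2 : ‖fderiv ℝ e' y v - fderiv ℝ e' (hat E p f y) v‖ ≤ ε' * (L * ‖v‖) := by
      rw [← sub_apply]
      refine (ContinuousLinearMap.le_opNorm _ v).trans ?_
      have h3 := hb.lip y (h23 hyK) _ hhK
      calc _ ≤ (L * ‖hat E p f y - y‖) * ‖v‖ := by gcongr
        _ ≤ (L * ε') * ‖v‖ := by gcongr
        _ = _ := by ring
    have h3 : m * ‖(A - ContinuousLinearMap.id ℝ E) v‖ ≤ 2 * (ε' * (L * ‖v‖)) := by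
      refine (hb.low _ hhK _).trans ?_
      have h4 : fderiv ℝ e' (hat E p f y) ((A - ContinuousLinearMap.id ℝ E) v) =
          (fderiv ℝ e' (hat E p f y) (A v) - fderiv ℝ e' y v) +
            (fderiv ℝ e' y v - fderiv ℝ e' (hat E p f y) v) := by
        rw [sub_apply, map_sub]
        simp
      rw [h4]
      refine (norm_add_le _ _).trans ?_
      linarith
    have h4 : ε' ≤ κ * m / (2 * (L + 1)) := min_le_right _ _
    rw [le_div_iff₀ (by positivity)] at h4
    have h5 : 2 * (ε' * (L * ‖v‖)) ≤ (κ * m) * ‖v‖ := by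
      have h6 : 2 * (ε' * (L * ‖v‖)) = (ε' * (2 * L)) * ‖v‖ := by ring
      rw [h6]
      exact mul_le_mul_of_nonneg_right (by nlinarith) (norm_nonneg v)
    have h6 : m * ‖(A - ContinuousLinearMap.id ℝ E) v‖ ≤ m * (κ * ‖v‖) := by
      refine (h3.trans h5).trans (le_of_eq (by ring))
    exact le_of_mul_le_mul_left h6 hm
  -- propagation
  set y' := ch E p x' with hy'
  have hyK' : y' ∈ closedBall (ch E p p) (2 * r) := ball_subset_closedBall hx'.2
  have hyx' : (ch E p).symm y' = x' := (ch E p).left_inv hx'.1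
  obtain ⟨hdom', hjet'⟩ := hprop _ _ (locIso hb hf) y ⟨hydom, hyK⟩
    (lt_of_le_of_lt hjet (by
      have : κ ≤ η / 2 := min_le_right _ _
      linarith)) y' hyK'
  have hjet2 : ‖jet (hat E p f) y'‖ ≤ ρ := by
    refine hjet'.trans ?_
    have h1 : κ ≤ ρ / Λ := min_le_left _ _
    rw [le_div_iff₀ hΛ0] at h1
    calc Λ * ‖jet (hat E p f) y‖ ≤ Λ * κ := by gcongr
      _ ≤ ρ := by linarith
  have hyt' : y' ∈ (ch E p).target := hb.sub (h23 hyK')
  have hs2 : f ((ch E p).symm y') ∈ (ch E p).source := by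
    obtain ⟨h1, w, hw, h2⟩ := hdom'
    rw [← h2]
    exact (ch E p).map_target (hb.sub hw)
  have hhK' := (locIso hb hf).maps y' ⟨hdom', hyK'⟩
  have j1 : ‖hat E p f y' - y'‖ ≤ ρ := (norm_fst_le (jet (hat E p f) y')).trans hjet2
  have j2 : ‖fderiv ℝ (hat E p f) y' - ContinuousLinearMap.id ℝ E‖ ≤ ρ :=
    (norm_snd_le (jet (hat E p f) y')).trans hjet2
  refine ⟨?_, fun v => ?_⟩
  · have h1 : e (f x') - e x' = e' (hat E p f y') - e' y' := by
      show _ = e ((ch E p).symm (hat E p f y')) - e ((ch E p).symm y')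
      rw [symm_hat hs2, hyx']
    rw [h1]
    have h2 := hb.lip0 _ hhK' _ (h23 hyK')
    refine h2.trans ?_
    rw [norm_sub_rev]
    calc L * ‖hat E p f y' - y'‖ ≤ L * ρ := by gcongr
      _ ≤ ε := hρ1
  · set w := D (E := E) (E' := E) (ch E p) x' v with hw
    have hwv : Dsy E p y' w = v := D_symm_chart hx'.1 v
    have h1 : D (E := E) (E' := F) (e ∘ f) x' v =
        fderiv ℝ e' (hat E p f y') (fderiv ℝ (hat E p f) y' w) := by
      rw [← hder hyt' hs2, hyx', hwv]
    have h2 : D (E := E) (E' := F) e x' v = fderiv ℝ e' y' w := by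
      rw [he', fderiv_imm he.smooth hyt', hyx', hwv]
    rw [h1, h2]
    have h3 : ‖fderiv ℝ e' (hat E p f y')
        ((fderiv ℝ (hat E p f) y' - ContinuousLinearMap.id ℝ E) w)‖ ≤ L * (ρ * ‖w‖) := by
      refine (ContinuousLinearMap.le_opNorm _ _).trans ?_
      gcongr
      · exact hb.up _ hhK'
      · exact (ContinuousLinearMap.le_opNorm _ _).trans (by gcongr)
    have h4 : ‖(fderiv ℝ e' (hat E p f y') - fderiv ℝ e' y') w‖ ≤ L * (ρ * ‖w‖) := by
      refine (ContinuousLinearMap.le_opNorm _ _).trans ?_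
      have h5 := hb.lip _ hhK' _ (h23 hyK')
      rw [norm_sub_rev y'] at h5
      calc _ ≤ (L * ‖hat E p f y' - y'‖) * ‖w‖ := by gcongr
        _ ≤ (L * ρ) * ‖w‖ := by gcongr
        _ = _ := by ring
    have h5 : fderiv ℝ e' (hat E p f y') (fderiv ℝ (hat E p f) y' w) - fderiv ℝ e' y' w =
        fderiv ℝ e' (hat E p f y')
          ((fderiv ℝ (hat E p f) y' - ContinuousLinearMap.id ℝ E) w) +
        (fderiv ℝ e' (hat E p f y') - fderiv ℝ e' y') w := by
      rw [sub_apply, sub_apply, map_sub]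
      simp
    rw [h5]
    refine (norm_add_le _ _).trans ?_
    have h6 := hb.low _ (h23 hyK') w
    have h7 : L * (ρ * ‖w‖) + L * (ρ * ‖w‖) = (2 * L * ρ) * ‖w‖ := by ring
    calc _ ≤ L * (ρ * ‖w‖) + L * (ρ * ‖w‖) := add_le_add h3 h4
      _ = (2 * L * ρ) * ‖w‖ := h7
      _ ≤ (ε * m) * ‖w‖ := by gcongr
      _ = ε * (m * ‖w‖) := by ring
      _ ≤ ε * ‖fderiv ℝ e' y' w‖ := by gcongr

end Pool.Agent.H75.PR
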