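import Mathlib
import Pool.Agent.H75.PR.Loc

/-! Global propagation on a connected compact manifold. -/

open scoped Topology ContDiff Manifold
open Set Filter Metric Bundle Pool.Agent.H826R2.WStmt Pool.Agent.W671.RStmt
open Pool.Agent.H75.PRStmt

noncomputable section

set_option maxSynthPendingDepth 3
set_option linter.unusedSectionVars false

namespace Pool.Agent.H75.PR

universe u

variable {E : Type u} [NormedAddCommGroup E] [NormedSpace ℝ E] [FiniteDimensional ℝ E]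
  {M : Type*} [TopologicalSpace M] [ChartedSpace E M] [IsManifold 𝓘(ℝ, E) ∞ M]
  {F : Type*} [NormedAddCommGroup F] [NormedSpace ℝ F]

/-- **Global propagation.** -/
theorem global_prop [T2Space M] [CompactSpace M] [ConnectedSpace M] {g : M → Bil E}
    (hg : IsPseudoMetric g) {e : M → F} (he : IsInjImmersion (E := E) e) (x₀ : M) :
    ∀ ε > 0, ∃ δ > 0, ∀ f : M → M, Iso g f → Near E e f δ x₀ → ∀ x, Near E e f ε x := by
  choose V hV hVp using fun p => local_prop hg he p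
  set R : M → M → Prop := fun x y => ∀ ε > 0, ∃ δ > 0, ∀ f : M → M, Iso g f → Near E e f δ x →
    Near E e f ε y with hR
  have htrans : ∀ {x y z}, R x y → R y z → R x z := by
    intro x y z h1 h2 ε hε
    obtain ⟨δ, hδ, h3⟩ := h2 ε hε
    obtain ⟨δ', hδ', h4⟩ := h1 δ hδ
    exact ⟨δ', hδ', fun f hf hn => h3 f hf (h4 f hf hn)⟩
  have hloc : ∀ p, ∀ x ∈ V p, ∀ y ∈ V p, R x y := by
    intro p x hx y hy ε hε
    obtain ⟨δ, hδ, h⟩ := hVp p ε hε
    exact ⟨δ, hδ, fun f hf hn => h f hf ⟨x, hx, hn⟩ y hy⟩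
  have hclopen : IsClopen {y | R x₀ y} := by
    refine ⟨⟨?_⟩, ?_⟩
    · rw [isOpen_iff_mem_nhds]
      intro y hy
      filter_upwards [hV y] with z hz hz2
      exact hy (htrans hz2 (hloc y z hz y (mem_of_mem_nhds (hV y))))
    · rw [isOpen_iff_mem_nhds]
      intro y hy
      filter_upwards [hV y] with z hz
      exact htrans hy (hloc y y (mem_of_mem_nhds (hV y)) z hz)
  have huniv : {y | R x₀ y} = univ := hclopen.eq_univ ⟨x₀, fun ε hε => ⟨ε, hε, fun f _ hn => hn⟩⟩
  intro ε hε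
  have key : ∃ δ > 0, ∀ f : M → M, Iso g f → Near E e f δ x₀ →
      ∀ x ∈ (univ : Set M), Near E e f ε x := by
    refine isCompact_univ.induction_on (p := fun S => ∃ δ > 0, ∀ f : M → M, Iso g f →
      Near E e f δ x₀ → ∀ x ∈ S, Near E e f ε x) ?_ ?_ ?_ ?_
    · exact ⟨1, one_pos, fun f _ _ x hx => absurd hx (notMem_empty x)⟩
    · rintro s t hst ⟨δ, hδ, h⟩
      exact ⟨δ, hδ, fun f hf hn x hx => h f hf hn x (hst hx)⟩
    · rintro s t ⟨δ, hδ, h⟩ ⟨δ', hδ', h'⟩
      refine ⟨min δ δ', lt_min hδ hδ', fun f hf hn x hx => ?_⟩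
      rcases hx with hx | hx
      · exact h f hf (hn.mono (min_le_left _ _)) x hx
      · exact h' f hf (hn.mono (min_le_right _ _)) x hx
    · intro p _
      refine ⟨V p, mem_nhdsWithin_of_mem_nhds (hV p), ?_⟩
      obtain ⟨δ, hδ, h⟩ := hVp p ε hε
      have hp : p ∈ {y | R x₀ y} := by rw [huniv]; exact mem_univ p
      obtain ⟨δ', hδ', h'⟩ := hp δ hδ
      exact ⟨δ', hδ', fun f hf hn x hx => h f hf ⟨p, mem_of_mem_nhds (hV p), h' f hf hn⟩ x hx⟩
  obtain ⟨δ, hδ, h⟩ := key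
  exact ⟨δ, hδ, fun f hf hn x => h f hf hn x (mem_univ x)⟩

end Pool.Agent.H75.PR
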