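import Mathlib
import Pool.Agent.H75.PR.Glob

/-! Recurrence of the flow from the boundedness of its derivative at one point. -/

open scoped Topology ContDiff Manifold
open Set Filter Metric Bundle Pool.Agent.H826R2.WStmt Pool.Agent.W671.RStmt
open Pool.Agent.H75.PRStmt Pool.Agent.W671

noncomputable section

set_option maxSynthPendingDepth 3
set_option linter.unusedSectionVars false

namespace Pool.Agent.H75.PR

universe u

variable {E : Type u} [NormedAddCommGroup E] [NormedSpace ℝ E] [FiniteDimensional ℝ E]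
  {M : Type*} [TopologicalSpace M] [ChartedSpace E M] [IsManifold 𝓘(ℝ, E) ∞ M]
  {F : Type*} [NormedAddCommGroup F] [NormedSpace ℝ F]

/-- the derivative of a map into the domain of the chart at `p`, read in this chart -/
def hD (p : M) (f : M → M) (x : M) : E →L[ℝ] E :=
  (D (E := E) (E' := E) (ch E p) (f x)).comp (D (E := E) (E' := E) f x)

lemma Dsy_hD {p : M} {f : M → M} {x : M} (hs : f x ∈ (ch E p).source) (v : E) :
    Dsy E p (ch E p (f x)) (hD p f x v) = D (E := E) (E' := E) f x v :=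
  D_symm_chart hs _

lemma cBil_hD {g : M → Bil E} {f : M → M} (hf : Iso g f) {p x : M}
    (hs : f x ∈ (ch E p).source) (u v : E) :
    cBil g p (ch E p (f x)) (hD p f x u) (hD p f x v) = bev (g x) u v := by
  rw [cBil_apply, Dsy_hD hs, Dsy_hD hs, (ch E p).left_inv hs, hf.inv]

lemma imm_hD {e : M → F} (he : ContMDiff 𝓘(ℝ, E) 𝓘(ℝ, F) ∞ e) {f : M → M}
    (hf : ContMDiff 𝓘(ℝ, E) 𝓘(ℝ, E) ∞ f) {p x : M} (hs : f x ∈ (ch E p).source) (v : E) :
    fderiv ℝ (e ∘ (ch E p).symm) (ch E p (f x)) (hD p f x v) =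
      D (E := E) (E' := F) (e ∘ f) x v := by
  rw [fderiv_imm he ((ch E p).map_source hs), Dsy_hD hs, (ch E p).left_inv hs,
    D_comp (he.mdifferentiableAt (by simp)) (hf.mdifferentiableAt (by simp))]
  rfl

lemma iso_D_injective {g : M → Bil E} (hg : IsPseudoMetric g) {f : M → M} (hf : Iso g f) (x : M) :
    Function.Injective (D (E := E) (E' := E) f x) := by
  rw [injective_iff_map_eq_zero]
  intro u hu
  apply hg.nondeg x
  intro v
  rw [← hf.inv x u v, hu]
  show (show E →L[ℝ] E →L[ℝ] ℝ from g (f x)) 0 _ = 0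
  rw [map_zero]; rfl

lemma iso_D_surjective {g : M → Bil E} (hg : IsPseudoMetric g) {f : M → M} (hf : Iso g f) (x : M) :
    Function.Surjective (D (E := E) (E' := E) f x) :=
  LinearMap.injective_iff_surjective.1
    (show Function.Injective (D (E := E) (E' := E) f x : E →ₗ[ℝ] E) from iso_D_injective hg hf x)

/-- **Recurrence.** If the derivatives `D (f k) x₀`, read in a chart, are bounded along an
ultrafilter, then some quotient of two members of the sequence has a one-jet close to the one-jet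
of the identity at every point. -/
theorem exists_near [T2Space M] [CompactSpace M] [ConnectedSpace M] {g : M → Bil E}
    (hg : IsPseudoMetric g) {e : M → F} (he : IsInjImmersion (E := E) e)
    {α : M → Cov E} {R : M → E}
    {Φ : M → ℝ → M} (hRF : WU.RF (toForm α) (fun x => (R x : TangentSpace 𝓘(ℝ, E) x)) Φ)
    (hpres : Preserves Φ g) (x₀ : M) (l : Ultrafilter ℕ) {t : ℕ → ℝ} (ht : Tendsto t l atTop)
    {y : M} (hy : Tendsto (fun k => Φ x₀ (t k)) l (𝓝 y)) {C : ℝ}
    (hC : ∀ᶠ k in (l : Filter ℕ), ‖hD (E := E) y (fun x => Φ x (t k)) x₀‖ ≤ C) {δ : ℝ} (hδ : 0 < δ) (T : ℝ) :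
    ∃ τ ≥ T, ∀ x, Near E e (fun x => Φ x τ) δ x := by
  have hiso : ∀ s, Iso g (fun x => Φ x s) := fun s => ⟨hRF.smooth_t s, hpres s⟩
  obtain ⟨V, hV, hVp⟩ := local_prop hg he y
  obtain ⟨δ₁, hδ₁, h1⟩ := global_prop hg he y δ hδ
  obtain ⟨δ₂, hδ₂, h2⟩ := hVp δ₁ hδ₁
  set A : ℕ → E →L[ℝ] E := fun k => hD y (fun x => Φ x (t k)) x₀ with hA
  obtain ⟨A₀, hA₀⟩ := WU.exists_limit l hC
  have hsrc : ∀ᶠ k in (l : Filter ℕ), Φ x₀ (t k) ∈ (ch E y).source :=
    hy.eventually ((isOpen_extChartAt_source y).mem_nhds (mem_extChartAt_source y))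
  have hz : Tendsto (fun k => ch E y (Φ x₀ (t k))) l (𝓝 (ch E y y)) :=
    ((continuousAt_extChartAt (I := 𝓘(ℝ, E)) y).tendsto).comp hy
  have hyt : ch E y y ∈ (ch E y).target := mem_extChartAt_target y
  have hO := isOpen_extChartAt_target (I := 𝓘(ℝ, E)) y
  -- the limit is injective
  have hG : ContinuousAt (cBil g y) (ch E y y) :=
    ((contDiffOn_cBil hg y).contDiffAt (hO.mem_nhds hyt)).continuousAt
  have hlim : ∀ u v, cBil g y (ch E y y) (A₀ u) (A₀ v) = bev (g x₀) u v := by
    intro u v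
    have a1 : Tendsto (fun k => A k u) l (𝓝 (A₀ u)) := WU.tendsto_app hA₀ tendsto_const_nhds
    have a2 : Tendsto (fun k => A k v) l (𝓝 (A₀ v)) := WU.tendsto_app hA₀ tendsto_const_nhds
    have a3 := WU.tendsto_app (WU.tendsto_app (hG.tendsto.comp hz) a1) a2
    refine tendsto_nhds_unique a3 (tendsto_const_nhds.congr' ?_)
    filter_upwards [hsrc] with k hk
    exact (cBil_hD (hiso (t k)) hk u v).symm
  have hinj : ∀ u, A₀ u = 0 → u = 0 := by
    intro u hu
    apply hg.nondeg x₀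
    intro v
    rw [← hlim u v, hu, map_zero]
    rfl
  -- in terms of the immersion
  set e' : E → F := e ∘ (ch E y).symm with he'
  set B : ℕ → E →L[ℝ] F := fun k => (fderiv ℝ e' (ch E y (Φ x₀ (t k)))).comp (A k) with hB
  set B₀ : E →L[ℝ] F := (fderiv ℝ e' (ch E y y)).comp A₀ with hB₀
  have hBt : Tendsto B l (𝓝 B₀) := by
    have h3 : ContinuousAt (fderiv ℝ e') (ch E y y) :=
      (((contDiffOn_imm (p := y) he.smooth).contDiffAt (hO.mem_nhds hyt)).fderiv_right
        (m := 0) (by simp)).continuousAt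
    exact ((isBoundedBilinearMap_comp (𝕜 := ℝ) (E := E) (F := E) (G := F)).continuous.tendsto
      (fderiv ℝ e' (ch E y y), A₀)).comp ((h3.tendsto.comp hz).prodMk_nhds hA₀)
  have hBe : ∀ᶠ k in (l : Filter ℕ), ∀ u, B k u = D (E := E) (E' := F) (e ∘ fun x => Φ x (t k)) x₀ u := by
    filter_upwards [hsrc] with k hk u
    exact imm_hD he.smooth (hRF.smooth_t (t k)) hk u
  have hB₀inj : ∀ u, B₀ u = 0 → u = 0 := by
    intro u hu
    apply hinj
    have h4 : fderiv ℝ e' (ch E y y) (A₀ u) = 0 := hu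
    rw [he', fderiv_imm he.smooth hyt] at h4
    apply Dsy_injective hyt
    apply he.immersion _
    rw [h4, map_zero]
  obtain ⟨c, hc, hcb⟩ := exists_lower (E := E) (W := F) (T := fun _ => B₀) (K := {0})
    isCompact_singleton continuousOn_const (fun _ _ a ha => hB₀inj a ha)
  have hcB : ∀ u, c * ‖u‖ ≤ ‖B₀ u‖ := fun u => hcb 0 rfl u
  -- choose the two members of the sequence
  set κ : ℝ := min (c / 2) (δ₂ * (c / 4)) with hκ
  have hκ0 : 0 < κ := by positivity
  have hBk : ∀ᶠ k in (l : Filter ℕ), ‖B k - B₀‖ < κ := by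
    have := tendsto_iff_norm_sub_tendsto_zero.1 hBt
    exact this.eventually (gt_mem_nhds hκ0)
  have hek : ∀ᶠ k in (l : Filter ℕ), ‖e (Φ x₀ (t k)) - e y‖ < δ₂ / 2 := by
    have h3 : Tendsto (fun k => e (Φ x₀ (t k))) l (𝓝 (e y)) :=
      (he.smooth.continuous.tendsto y).comp hy
    have := tendsto_iff_norm_sub_tendsto_zero.1 h3
    exact this.eventually (gt_mem_nhds (by positivity))
  have hVk : ∀ᶠ k in (l : Filter ℕ), Φ x₀ (t k) ∈ V := hy.eventually hV
  obtain ⟨k, hk1, hk2, hk3, hk4⟩ := (hBk.and (hek.and (hVk.and hBe))).exists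
  obtain ⟨j, hj1, hj2, hj4, hj5⟩ := (hBk.and (hek.and (hBe.and
    (ht.eventually (eventually_ge_atTop (t k + T)))))).exists
  refine ⟨t j - t k, by linarith, ?_⟩
  have hfl : Φ (Φ x₀ (t k)) (t j - t k) = Φ x₀ (t j) := by
    rw [← hRF.add]; congr 1; ring
  apply h1 _ (hiso _)
  apply h2 _ (hiso _) ⟨Φ x₀ (t k), hk3, ?_⟩ y (mem_of_mem_nhds hV)
  refine ⟨?_, fun v => ?_⟩
  · show ‖e (Φ (Φ x₀ (t k)) (t j - t k)) - e (Φ x₀ (t k))‖ ≤ δ₂
    rw [hfl]
    have h3 : e (Φ x₀ (t j)) - e (Φ x₀ (t k)) =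
      (e (Φ x₀ (t j)) - e y) - (e (Φ x₀ (t k)) - e y) := by abel
    rw [h3]
    refine (norm_sub_le _ _).trans ?_
    linarith
  · obtain ⟨u, hu⟩ := iso_D_surjective hg (hiso (t k)) x₀ v
    have e1 : D (E := E) (E' := F) e (Φ x₀ (t k)) v = B k u := by
      rw [hk4 u, D_comp (he.smooth.mdifferentiableAt (by simp))
        ((hRF.smooth_t (t k)).mdifferentiableAt (by simp)), ← hu]
      rfl
    have e2 : D (E := E) (E' := F) (e ∘ fun x => Φ x (t j - t k)) (Φ x₀ (t k)) v = B j u := by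
      rw [hj4 u]
      have e3 : (e ∘ fun x => Φ x (t j)) =
          (e ∘ fun x => Φ x (t j - t k)) ∘ (fun x => Φ x (t k)) := by
        funext x
        simp only [Function.comp]
        rw [← hRF.add]
        congr 2; ring
      rw [e3, D_comp ((he.smooth.comp (hRF.smooth_t (t j - t k))).mdifferentiableAt (by simp))
        ((hRF.smooth_t (t k)).mdifferentiableAt (by simp)), ← hu]
      rfl
    rw [e1, e2]
    have h3 : ‖B j u - B k u‖ ≤ (2 * κ) * ‖u‖ := by
      have h4 : B j u - B k u = ((B j - B₀) - (B k - B₀)) u := by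
        simp
      rw [h4]
      refine (ContinuousLinearMap.le_opNorm _ _).trans ?_
      gcongr
      refine (norm_sub_le _ _).trans ?_
      linarith
    have h4 : c / 2 * ‖u‖ ≤ ‖B k u‖ := by
      have h5 : ‖B₀ u‖ ≤ ‖B k u‖ + ‖(B k - B₀) u‖ := by
        have h6 : B₀ u = B k u - (B k - B₀) u := by simp
        rw [h6]
        exact norm_sub_le _ _
      have h7 : ‖(B k - B₀) u‖ ≤ c / 2 * ‖u‖ := by
        refine (ContinuousLinearMap.le_opNorm _ _).trans ?_
        gcongr
        exact hk1.le.trans (min_le_left _ _)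
      have h8 := hcB u
      linarith
    have h5 : κ ≤ δ₂ * (c / 4) := min_le_right _ _
    calc ‖B j u - B k u‖ ≤ (2 * κ) * ‖u‖ := h3
      _ ≤ (2 * (δ₂ * (c / 4))) * ‖u‖ := by gcongr
      _ = δ₂ * (c / 2 * ‖u‖) := by ring
      _ ≤ δ₂ * ‖B k u‖ := by gcongr

/-- **Closed orbits** of Reeb flows preserving a pseudo-Riemannian metric with a recurrent one-jet -/
theorem periodic_of_near [T2Space M] [CompactSpace M] [ConnectedSpace M]
    (hdim : 1 < Module.finrank ℝ E) {α : M → Cov E} (hα : IsContact α) {R : M → E}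
    (hR : IsReeb α R) {e : M → F} (he : IsInjImmersion (E := E) e)
    {Φ : M → ℝ → M} (hΦ : IsFlow R Φ) (hsm : ∀ t, ContMDiff 𝓘(ℝ, E) 𝓘(ℝ, E) ∞ (fun x => Φ x t))
    (h : ∀ δ > 0, ∃ τ ≥ (1:ℝ), ∀ x, Near E e (fun x => Φ x τ) δ x) :
    ∃ (c₁ c₂ : ℝ → M) (T₁ T₂ : ℝ), IsPeriodicOrbit R c₁ T₁ ∧ IsPeriodicOrbit R c₂ T₂ ∧
      Disjoint (Set.range c₁) (Set.range c₂) := by
  have hR1 : (fun x : M => (1:ℝ) • R x) = R := by funext x; rw [one_smul]
  choose τ hτ hτn using fun k : ℕ => h (1 / ((k:ℝ) + 2)) (by positivity)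
  have hδ : ∀ k : ℕ, 1 / ((k:ℝ) + 2) ≤ 1 / 2 := by
    intro k
    have : (0:ℝ) ≤ k := Nat.cast_nonneg k
    gcongr
    linarith
  have hD : ∀ (k : ℕ) (x : M) (v : E),
      D (E := E) (E' := F) e (Φ x (τ k)) (D (E := E) (E' := E) (fun y => Φ y (τ k)) x v) =
        D (E := E) (E' := F) (e ∘ fun y => Φ y (τ k)) x v := by
    intro k x v
    rw [D_comp (he.smooth.mdifferentiableAt (by simp)) ((hsm (τ k)).mdifferentiableAt (by simp))]
    rfl
  have key := exists_periodic_of_recurrent hdim α hα R hR (fun _ => (1:ℝ)) contMDiff_const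
    (fun _ => one_pos) Φ (by rw [hR1]; exact hΦ) e he (fun k _ => τ k)
    { cont := fun k => continuous_const
      lower := ⟨1, one_pos, fun k _ => hτ k⟩
      uniform := by
        intro ε hε
        have h1 : Tendsto (fun k : ℕ => 1 / ((k:ℝ) + 2)) atTop (𝓝 0) := by
          have := tendsto_one_div_add_atTop_nhds_zero_nat (𝕜 := ℝ)
          have h2 := (tendsto_add_atTop_iff_nat 1).2 this
          refine h2.congr fun k => ?_
          push_cast
          ring
        filter_upwards [h1.eventually (gt_mem_nhds hε)] with k hk x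
        exact lt_of_le_of_lt (hτn k x).1 hk
      deriv := by
        refine ⟨2, Filter.Eventually.of_forall fun k x => ⟨0, fun v => ?_⟩⟩
        have h1 := ((hτn k x).2 v).trans
          (mul_le_mul_of_nonneg_right (hδ k) (norm_nonneg (D (E := E) (E' := F) e x v)))
        have h2 : (0 : E →L[ℝ] ℝ) v • ((1:ℝ) • R (Φ x (τ k))) = 0 := by simp
        rw [h2, add_zero, hD]
        set a := D (E := E) (E' := F) (e ∘ fun y => Φ y (τ k)) x v with ha
        set b := D (E := E) (E' := F) e x v with hb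
        constructor
        · have h3 : a = (a - b) + b := by abel
          rw [h3]
          refine (norm_add_le _ _).trans ?_
          linarith [norm_nonneg b]
        · have h3 : (2:ℝ) • b = (a + b) - (a - b) := by rw [two_smul]; abel
          have h4 : ‖(2:ℝ) • b‖ ≤ ‖a + b‖ + ‖a - b‖ := by rw [h3]; exact norm_sub_le _ _
          rw [norm_smul] at h4
          norm_num at h4
          linarith [norm_nonneg b] }
  rw [hR1] at key
  exact key

end Pool.Agent.H75.PR
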