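import Mathlib
import Pool.Agent.H75.PR.Rec

/-! Boundedness of the derivative of the flow from a positivity condition at one point. -/

open scoped Topology ContDiff Manifold
open Set Filter Metric Bundle Pool.Agent.H826R2.WStmt Pool.Agent.W671.RStmt
open Pool.Agent.H75.PRStmt Pool.Agent.W671

noncomputable section

set_option maxSynthPendingDepth 3
set_option linter.unusedSectionVars false

namespace Pool.Agent.H75.PR

universe u

/-- Finsler's lemma -/
lemma finsler {E : Type*} [NormedAddCommGroup E] [NormedSpace ℝ E] [FiniteDimensional ℝ E]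
    (Q : E →L[ℝ] E →L[ℝ] ℝ) (a b : E →L[ℝ] ℝ)
    (h : ∀ u, u ≠ 0 → a u = 0 → b u = 0 → 0 < Q u u) :
    ∃ N : ℝ, 0 ≤ N ∧ ∀ u, 0 ≤ Q u u + N * ((a u) ^ 2 + (b u) ^ 2) := by
  have : ProperSpace E := FiniteDimensional.proper ℝ E
  have hq : Continuous fun u : E => Q u u := Q.continuous.clm_apply continuous_id
  have hs : Continuous fun u : E => (a u) ^ 2 + (b u) ^ 2 := by fun_prop
  obtain ⟨n, hn⟩ := (isCompact_sphere (0:E) 1).elim_directed_cover
    (fun n : ℕ => {u : E | 0 < Q u u + (n:ℝ) * ((a u) ^ 2 + (b u) ^ 2)})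
    (fun n => isOpen_lt continuous_const (hq.add (continuous_const.mul hs)))
    (by
      intro u hu
      have hu0 : u ≠ 0 := by
        rintro rfl
        simp at hu
      rw [mem_iUnion]
      by_cases h0 : (a u) ^ 2 + (b u) ^ 2 = 0
      · have ha : a u = 0 := by nlinarith [sq_nonneg (a u), sq_nonneg (b u)]
        have hb : b u = 0 := by nlinarith [sq_nonneg (a u), sq_nonneg (b u)]
        refine ⟨0, ?_⟩
        show 0 < Q u u + ((0:ℕ):ℝ) * ((a u) ^ 2 + (b u) ^ 2)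
        rw [h0, mul_zero, add_zero]
        exact h u hu0 ha hb
      · have hpos : 0 < (a u) ^ 2 + (b u) ^ 2 := lt_of_le_of_ne (by positivity) (Ne.symm h0)
        obtain ⟨n, hn⟩ := exists_nat_gt ((-Q u u) / ((a u) ^ 2 + (b u) ^ 2))
        refine ⟨n, ?_⟩
        show 0 < Q u u + (n:ℝ) * ((a u) ^ 2 + (b u) ^ 2)
        rw [div_lt_iff₀ hpos] at hn
        linarith)
    (by
      refine Monotone.directed_le ?_
      intro n m hnm u hu
      have h1 : (n:ℝ) ≤ m := by exact_mod_cast hnm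
      have h2 : (n:ℝ) * ((a u) ^ 2 + (b u) ^ 2) ≤ (m:ℝ) * ((a u) ^ 2 + (b u) ^ 2) := by gcongr
      have h3 : 0 < Q u u + (n:ℝ) * ((a u) ^ 2 + (b u) ^ 2) := hu
      show 0 < Q u u + (m:ℝ) * ((a u) ^ 2 + (b u) ^ 2)
      linarith)
  refine ⟨n, Nat.cast_nonneg n, fun u => ?_⟩
  rcases eq_or_ne u 0 with rfl | hu
  · simp
  · have hnu : ‖u‖ ≠ 0 := norm_ne_zero_iff.2 hu
    have h1 : 0 < Q (‖u‖⁻¹ • u) (‖u‖⁻¹ • u) +
        (n:ℝ) * ((a (‖u‖⁻¹ • u)) ^ 2 + (b (‖u‖⁻¹ • u)) ^ 2) :=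
      hn (by simp [norm_smul, hnu])
    simp only [map_smul, smul_apply, smul_eq_mul] at h1
    have h2 : ‖u‖⁻¹ * (‖u‖⁻¹ * Q u u) + (n:ℝ) * ((‖u‖⁻¹ * a u) ^ 2 + (‖u‖⁻¹ * b u) ^ 2) =
        (‖u‖⁻¹) ^ 2 * (Q u u + (n:ℝ) * ((a u) ^ 2 + (b u) ^ 2)) := by ring
    rw [h2] at h1
    exact (pos_of_mul_pos_right h1 (by positivity)).le

variable {E : Type u} [NormedAddCommGroup E] [NormedSpace ℝ E] [FiniteDimensional ℝ E]
  {M : Type*} [TopologicalSpace M] [ChartedSpace E M] [IsManifold 𝓘(ℝ, E) ∞ M]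

/-- the flow preserves its generator -/
lemma D_flow_R {α : M → Cov E} {R : M → E} {Φ : M → ℝ → M}
    (hRF : WU.RF (toForm α) (fun x => (R x : TangentSpace 𝓘(ℝ, E) x)) Φ) (x : M) (t : ℝ) :
    D (E := E) (E' := E) (fun y => Φ y t) x (R x) = R (Φ x t) := by
  have h1 : HasMFDerivAt 𝓘(ℝ, ℝ) 𝓘(ℝ, E) (Φ x) 0 _ := hRF.int x 0
  have h2 := (((hRF.smooth_t t).mdifferentiableAt (x := Φ x 0) (by simp)).hasMFDerivAt).comp 0 h1
  have h3 : HasMFDerivAt 𝓘(ℝ, ℝ) 𝓘(ℝ, E) (Φ (Φ x t)) 0 _ := hRF.int (Φ x t) 0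
  have h4 : ((fun y => Φ y t) ∘ Φ x) = Φ (Φ x t) := by
    funext s
    simp only [Function.comp]
    rw [← hRF.add, ← hRF.add, add_comm]
  rw [h4] at h2
  have h5 := DFunLike.congr_fun (hasMFDerivAt_unique h2 h3) (1:ℝ)
  have h6 : (mfderiv 𝓘(ℝ, E) 𝓘(ℝ, E) (fun y => Φ y t) (Φ x 0) ((1:ℝ) • R (Φ x 0) : E) : E) =
      (1:ℝ) • R (Φ (Φ x t) 0) := h5
  rw [one_smul, one_smul, hRF.zero, hRF.zero] at h6
  exact h6

theorem bdd_of_pos [T2Space M] [CompactSpace M] {g : M → Bil E}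
    (hg : IsPseudoMetric g) {α : M → Cov E} (hα : IsContact α) {R : M → E}
    {Φ : M → ℝ → M} (hRF : WU.RF (toForm α) (fun x => (R x : TangentSpace 𝓘(ℝ, E) x)) Φ)
    (hpres : Preserves Φ g) {x₀ : M}
    (hx₀ : ∀ u, u ≠ 0 → ev (α x₀) u = 0 → bev (g x₀) u (R x₀) = 0 → 0 < bev (g x₀) u u)
    (l : Ultrafilter ℕ) {t : ℕ → ℝ}
    {y : M} (hy : Tendsto (fun k => Φ x₀ (t k)) l (𝓝 y)) :
    ∃ C : ℝ, ∀ᶠ k in (l : Filter ℕ), ‖hD (E := E) y (fun x => Φ x (t k)) x₀‖ ≤ C := by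
  have hiso : ∀ s, Iso g (fun x => Φ x s) := fun s => ⟨hRF.smooth_t s, hpres s⟩
  set A : ℕ → E →L[ℝ] E := fun k => hD y (fun x => Φ x (t k)) x₀ with hA
  by_contra hcon
  push Not at hcon
  have hAt : Tendsto (fun k => ‖A k‖) l atTop := by
    rw [Filter.tendsto_atTop]
    intro C
    exact (hcon C).mono fun k hk => hk.le
  -- Finsler's lemma at `x₀`
  set Q : E →L[ℝ] E →L[ℝ] ℝ := g x₀ with hQ
  set a₀ : E →L[ℝ] ℝ := α x₀ with ha₀
  obtain ⟨N, hN, hfin⟩ := finsler Q a₀ (Q.flip (R x₀)) hx₀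
  -- convergence in the chart
  have hsrc : ∀ᶠ k in (l : Filter ℕ), Φ x₀ (t k) ∈ (ch E y).source :=
    hy.eventually ((isOpen_extChartAt_source y).mem_nhds (mem_extChartAt_source y))
  set z : ℕ → E := fun k => ch E y (Φ x₀ (t k)) with hzdef
  have hz : Tendsto z l (𝓝 (ch E y y)) :=
    ((continuousAt_extChartAt (I := 𝓘(ℝ, E)) y).tendsto).comp hy
  have hyt : ch E y y ∈ (ch E y).target := mem_extChartAt_target y
  have hO := isOpen_extChartAt_target (I := 𝓘(ℝ, E)) y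
  have hGc : Tendsto (fun k => cBil g y (z k)) l (𝓝 (cBil g y (ch E y y))) :=
    (((contDiffOn_cBil hg y).contDiffAt (hO.mem_nhds hyt)).continuousAt).tendsto.comp hz
  have hac : Tendsto (fun k => Helper186.chartForm 𝓘(ℝ, E) (toForm α) y (z k)) l
      (𝓝 (Helper186.chartForm 𝓘(ℝ, E) (toForm α) y (ch E y y))) := by
    have h1 := Helper186.contDiffOn_chartForm (I := 𝓘(ℝ, E)) (α := toForm α) hα.smooth y
    exact ((h1.contDiffAt (hO.mem_nhds hyt)).continuousAt).tendsto.comp hz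
  have hrc : Tendsto (fun k => WU.RF.Rc Φ y (z k)) l (𝓝 (WU.RF.Rc Φ y (ch E y y))) :=
    (hRF.continuousAt_Rc y hyt).tendsto.comp hz
  -- the values on the images of the derivative
  have hG : ∀ᶠ k in (l : Filter ℕ), ∀ u v, cBil g y (z k) (A k u) (A k v) = Q u v := by
    filter_upwards [hsrc] with k hk u v
    exact cBil_hD (hiso (t k)) hk u v
  have ha : ∀ᶠ k in (l : Filter ℕ), ∀ u,
      Helper186.chartForm 𝓘(ℝ, E) (toForm α) y (z k) (A k u) = a₀ u := by
    filter_upwards [hsrc] with k hk u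
    have h1 : Helper186.chartForm 𝓘(ℝ, E) (toForm α) y (z k) (A k u) =
        ev (α ((ch E y).symm (z k))) (Dsy E y (z k) (A k u)) := rfl
    have h2 := Dsy_hD (p := y) (f := fun x => Φ x (t k)) (x := x₀) hk u
    have h3 : (ch E y).symm (z k) = Φ x₀ (t k) := (ch E y).left_inv hk
    rw [h1, h3]
    have h4 : Dsy E y (z k) (A k u) = D (E := E) (E' := E) (fun x => Φ x (t k)) x₀ u := h2
    rw [h4]
    exact hRF.strict (t k) x₀ u
  have hr : ∀ᶠ k in (l : Filter ℕ), ∀ u,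
      cBil g y (z k) (A k u) (WU.RF.Rc Φ y (z k)) = Q u (R x₀) := by
    filter_upwards [hsrc, hG] with k hk hGk u
    have h1 : Dsy E y (z k) (WU.RF.Rc Φ y (z k)) = R ((ch E y).symm (z k)) :=
      hRF.tangent_Rc y ((ch E y).map_source hk)
    have h2 : Dsy E y (z k) (A k (R x₀)) = R ((ch E y).symm (z k)) := by
      have h3 := Dsy_hD (p := y) (f := fun x => Φ x (t k)) (x := x₀) hk (R x₀)
      rw [D_flow_R hRF] at h3
      have h4 : (ch E y).symm (z k) = Φ x₀ (t k) := (ch E y).left_inv hk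
      rw [h4]
      exact h3
    have h3 : WU.RF.Rc Φ y (z k) = A k (R x₀) := by
      have h4 : Dsy E y (z k) (WU.RF.Rc Φ y (z k) - A k (R x₀)) = 0 := by
        rw [map_sub, h1, h2, sub_self]
      exact sub_eq_zero.1 (Dsy_injective ((ch E y).map_source hk) h4)
    rw [h3, hGk]
  have hsurj : ∀ᶠ k in (l : Filter ℕ), Function.Surjective (A k) := by
    filter_upwards [hsrc] with k hk
    have hinj : Function.Injective (A k : E →ₗ[ℝ] E) := by
      rw [injective_iff_map_eq_zero]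
      intro u hu
      have h1 := Dsy_hD (p := y) (f := fun x => Φ x (t k)) (x := x₀) hk u
      have h2 : hD y (fun x => Φ x (t k)) x₀ u = 0 := hu
      rw [h2, map_zero] at h1
      exact iso_D_injective hg (hiso (t k)) x₀ (by rw [← h1, map_zero])
    exact LinearMap.injective_iff_surjective.1 hinj
  -- the limit of the normalised derivatives
  have hA0 : ∀ᶠ k in (l : Filter ℕ), 0 < ‖A k‖ := hAt.eventually (eventually_gt_atTop 0)
  obtain ⟨B, hB⟩ := WU.exists_limit (C := 1) l (a := fun k => ‖A k‖⁻¹ • A k) (by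
    filter_upwards [hA0] with k hk
    rw [norm_smul, norm_inv, norm_norm, inv_mul_cancel₀ hk.ne'])
  have hB1 : ‖B‖ = 1 := by
    refine tendsto_nhds_unique hB.norm (tendsto_const_nhds.congr' ?_)
    filter_upwards [hA0] with k hk
    rw [norm_smul, norm_inv, norm_norm, inv_mul_cancel₀ hk.ne']
  have hinv : Tendsto (fun k => ‖A k‖⁻¹) l (𝓝 0) := tendsto_inv_atTop_zero.comp hAt
  have hBu : ∀ u, Tendsto (fun k => (‖A k‖⁻¹ • A k) u) l (𝓝 (B u)) := fun u =>
    WU.tendsto_app hB tendsto_const_nhds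
  set G₀ := cBil g y (ch E y y) with hG₀
  set α₀ := Helper186.chartForm 𝓘(ℝ, E) (toForm α) y (ch E y y) with hα₀
  set r₀ := WU.RF.Rc Φ y (ch E y y) with hr₀
  have hpos : ∀ w, 0 ≤ G₀ w w + N * ((α₀ w) ^ 2 + (G₀ w r₀) ^ 2) := by
    intro w
    have hw : Tendsto (fun _ : ℕ => w) (l : Filter ℕ) (𝓝 w) := tendsto_const_nhds
    have h1 := (WU.tendsto_app (WU.tendsto_app hGc hw) hw).add
      (((((WU.tendsto_app hac hw).pow 2).add
        ((WU.tendsto_app (WU.tendsto_app hGc hw) hrc).pow 2)).const_mul N))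
    refine ge_of_tendsto h1 ?_
    filter_upwards [hG, ha, hr, hsurj] with k k1 k2 k3 k4
    obtain ⟨u, rfl⟩ := k4 w
    rw [k1, k2, k3]
    exact hfin u
  have hz1 : ∀ u, G₀ (B u) (B u) = 0 := by
    intro u
    have h1 := WU.tendsto_app (WU.tendsto_app hGc (hBu u)) (hBu u)
    have h2 : Tendsto (fun k => ‖A k‖⁻¹ * (‖A k‖⁻¹ * Q u u)) l (𝓝 (0 * (0 * Q u u))) :=
      hinv.mul (hinv.mul_const _)
    rw [zero_mul] at h2
    refine tendsto_nhds_unique h1 (h2.congr' ?_)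
    filter_upwards [hG] with k k1
    simp only [smul_apply, map_smul, smul_eq_mul]
    rw [k1]
  have hz2 : ∀ u, α₀ (B u) = 0 := by
    intro u
    have h1 := WU.tendsto_app hac (hBu u)
    have h2 : Tendsto (fun k => ‖A k‖⁻¹ * a₀ u) l (𝓝 (0 * a₀ u)) := hinv.mul_const _
    rw [zero_mul] at h2
    refine tendsto_nhds_unique h1 (h2.congr' ?_)
    filter_upwards [ha] with k k1
    simp only [smul_apply, map_smul, smul_eq_mul]
    rw [k1]
  have hz3 : ∀ u, G₀ (B u) r₀ = 0 := by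
    intro u
    have h1 := WU.tendsto_app (WU.tendsto_app hGc (hBu u)) hrc
    have h2 : Tendsto (fun k => ‖A k‖⁻¹ * Q u (R x₀)) l (𝓝 (0 * Q u (R x₀))) :=
      hinv.mul_const _
    rw [zero_mul] at h2
    refine tendsto_nhds_unique h1 (h2.congr' ?_)
    filter_upwards [hr] with k k1
    simp only [smul_apply, map_smul, smul_eq_mul]
    rw [k1]
  have hB0 : B = 0 := by
    ext1 u
    apply cBil_nondeg hg hyt
    ext1 w
    show G₀ (B u) w = 0
    set c' := G₀ w w + N * ((α₀ w) ^ 2 + (G₀ w r₀) ^ 2) with hc'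
    have h1 : ∀ s : ℝ, 0 ≤ 2 * s * G₀ (B u) w + s ^ 2 * c' := by
      intro s
      have h2 := hpos (B u + s • w)
      simp only [map_add, map_smul, add_apply, smul_apply, smul_eq_mul] at h2
      rw [hz1, hz2, hz3, cBil_symm hg y (ch E y y) w (B u)] at h2
      rw [hc']
      linarith
    by_contra hne
    have hc0 : 0 ≤ c' := hpos w
    set b := G₀ (B u) w with hb
    have h2 := h1 (-b / (c' + 1))
    have h3 : 2 * (-b / (c' + 1)) * b + (-b / (c' + 1)) ^ 2 * c' =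
        -(b ^ 2 * (c' + 2)) / (c' + 1) ^ 2 := by
      field_simp
      ring
    rw [h3] at h2
    have hb2 : 0 < b ^ 2 := by positivity
    have h4 : -(b ^ 2 * (c' + 2)) / (c' + 1) ^ 2 < 0 := by
      apply div_neg_of_neg_of_pos
      · have : 0 < b ^ 2 * (c' + 2) := by positivity
        linarith
      · positivity
    linarith
  rw [hB0, norm_zero] at hB1
  exact zero_ne_one hB1

end Pool.Agent.H75.PR
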