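import Mathlib
import Pool.Agent.H75.PR.Bdd

/-! Closed orbits of Reeb flows preserving a pseudo-Riemannian metric. -/

open scoped Topology ContDiff Manifold
open Set Filter Metric Bundle Pool.Agent.H826R2.WStmt Pool.Agent.W671.RStmt
open Pool.Agent.H75.PRStmt Pool.Agent.W671 Pool.Agent.H826R2

noncomputable section

set_option maxSynthPendingDepth 3
set_option linter.unusedSectionVars false

namespace Pool.Agent.H75.PR

universe u

variable {E : Type u} [NormedAddCommGroup E] [NormedSpace ℝ E] [FiniteDimensional ℝ E]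
  {M : Type*} [TopologicalSpace M] [ChartedSpace E M] [IsManifold 𝓘(ℝ, E) ∞ M]
  {F : Type*} [NormedAddCommGroup F] [NormedSpace ℝ F]

lemma rf_of [T2Space M] {α : M → Cov E} (hα : IsContact α) {R : M → E} (hR : IsReeb α R)
    {Φ : M → ℝ → M} (hΦ : IsFlow R Φ) :
    WU.RF (toForm α) (fun x => (R x : TangentSpace 𝓘(ℝ, E) x)) Φ := by
  have c : Wein.CD (toForm α) (fun x => (R x : TangentSpace 𝓘(ℝ, E) x)) := ⟨hα.toWein, hR.toWein⟩
  exact WU.RF.of c hΦ.zero hΦ.integral

/-- boundedness as measured by an immersion gives boundedness in a chart -/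
lemma bdd_of_imm {e : M → F}
    (he : IsInjImmersion (E := E) e) {f : ℕ → M → M} (hf : ∀ k, ContMDiff 𝓘(ℝ, E) 𝓘(ℝ, E) ∞ (f k))
    {x₀ : M} (l : Ultrafilter ℕ) {y : M} (hy : Tendsto (fun k => f k x₀) l (𝓝 y)) {C : ℝ}
    (hC : ∀ k, ∀ v : E, ‖D (E := E) (E' := F) e (f k x₀) (D (E := E) (E' := E) (f k) x₀ v)‖ ≤
      C * ‖v‖) :
    ∃ C' : ℝ, ∀ᶠ k in (l : Filter ℕ), ‖hD (E := E) y (f k) x₀‖ ≤ C' := by
  have hyt : ch E y y ∈ (ch E y).target := mem_extChartAt_target y
  have hO := isOpen_extChartAt_target (I := 𝓘(ℝ, E)) y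
  set e' : E → F := e ∘ (ch E y).symm with he'
  have hcont : ContinuousAt (fderiv ℝ e') (ch E y y) :=
    (((contDiffOn_imm (p := y) he.smooth).contDiffAt (hO.mem_nhds hyt)).fderiv_right
      (m := 0) (by simp)).continuousAt
  obtain ⟨c, hc, hcb⟩ := exists_lower (E := E) (W := F) (T := fun _ => fderiv ℝ e' (ch E y y))
    (K := {0}) isCompact_singleton continuousOn_const (fun _ _ a ha => by
      rw [he', fderiv_imm he.smooth hyt] at ha
      apply Dsy_injective hyt
      apply he.immersion _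
      rw [ha, map_zero])
  have hcB : ∀ u, c * ‖u‖ ≤ ‖fderiv ℝ e' (ch E y y) u‖ := fun u => hcb 0 rfl u
  have hsrc : ∀ᶠ k in (l : Filter ℕ), f k x₀ ∈ (ch E y).source :=
    hy.eventually ((isOpen_extChartAt_source y).mem_nhds (mem_extChartAt_source y))
  have hz : Tendsto (fun k => ch E y (f k x₀)) l (𝓝 (ch E y y)) :=
    ((continuousAt_extChartAt (I := 𝓘(ℝ, E)) y).tendsto).comp hy
  have hnear : ∀ᶠ k in (l : Filter ℕ),
      ‖fderiv ℝ e' (ch E y (f k x₀)) - fderiv ℝ e' (ch E y y)‖ < c / 2 := by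
    have := tendsto_iff_norm_sub_tendsto_zero.1 (hcont.tendsto.comp hz)
    exact this.eventually (gt_mem_nhds (by positivity))
  refine ⟨2 * |C| / c, ?_⟩
  filter_upwards [hsrc, hnear] with k k1 k2
  refine ContinuousLinearMap.opNorm_le_bound _ (by positivity) fun v => ?_
  set w := hD (E := E) y (f k) x₀ v with hw
  have h1 : fderiv ℝ e' (ch E y (f k x₀)) w =
      D (E := E) (E' := F) e (f k x₀) (D (E := E) (E' := E) (f k) x₀ v) := by
    rw [hw, imm_hD he.smooth (hf k) k1,
      D_comp (he.smooth.mdifferentiableAt (by simp)) ((hf k).mdifferentiableAt (by simp))]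
    rfl
  have h2 : ‖fderiv ℝ e' (ch E y (f k x₀)) w‖ ≤ |C| * ‖v‖ := by
    rw [h1]
    exact (hC k v).trans (mul_le_mul_of_nonneg_right (le_abs_self C) (norm_nonneg v))
  have h3 : c * ‖w‖ ≤ ‖fderiv ℝ e' (ch E y (f k x₀)) w‖ + c / 2 * ‖w‖ := by
    refine (hcB w).trans ?_
    have h4 : fderiv ℝ e' (ch E y y) w = fderiv ℝ e' (ch E y (f k x₀)) w -
        (fderiv ℝ e' (ch E y (f k x₀)) - fderiv ℝ e' (ch E y y)) w := by simp
    rw [h4]
    refine (norm_sub_le _ _).trans ?_
    gcongr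
    exact (ContinuousLinearMap.le_opNorm _ _).trans (by gcongr)
  have h4 : c / 2 * ‖w‖ ≤ |C| * ‖v‖ := by linarith
  rw [div_mul_eq_mul_div, le_div_iff₀ hc]
  linarith

/-- at a point where a Lorentzian form is nonpositive on `R`, it is positive on `ker α ∩ R^⊥` -/
lemma pos_of_causal {b : Bil E} (hs : ∀ u v, bev b u v = bev b v u) (hb : IsLorentz b)
    {a : Cov E} {r : E} (ha : ev a r = 1) (hr : bev b r r ≤ 0) {u : E} (hu : u ≠ 0)
    (hau : ev a u = 0) (hur : bev b u r = 0) : 0 < bev b u u := by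
  obtain ⟨w, hw, hpos⟩ := hb
  by_contra hcon
  push Not at hcon
  set c := bev b w w with hc
  set p := bev b u w with hp
  set q := bev b r w with hq
  have hadd : ∀ x y z, bev b (x + y) z = bev b x z + bev b y z := by
    intro x y z
    show (show E →L[ℝ] E →L[ℝ] ℝ from b) (x + y) z = _
    rw [map_add]; rfl
  have hsmul : ∀ (s : ℝ) x z, bev b (s • x) z = s * bev b x z := by
    intro s x z
    show (show E →L[ℝ] E →L[ℝ] ℝ from b) (s • x) z = _
    rw [map_smul]; rfl
  have hadd' : ∀ x y z, bev b z (x + y) = bev b z x + bev b z y := by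
    intro x y z
    rw [hs z, hadd, hs x, hs y]
  have hsmul' : ∀ (s : ℝ) x z, bev b z (s • x) = s * bev b z x := by
    intro s x z
    rw [hs z, hsmul, hs x]
  set v : E := q • u + (-p) • r with hv
  have h1 : bev b v w = 0 := by
    rw [hv, hadd, hsmul, hsmul]; ring
  have h2 : bev b v v = q ^ 2 * bev b u u + p ^ 2 * bev b r r := by
    rw [hv, hadd, hsmul, hsmul, hadd', hadd', hsmul', hsmul', hsmul', hsmul', hs r u, hur]
    ring
  have h3 : v = 0 := by
    by_contra hne
    have := hpos v hne h1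
    rw [h2] at this
    nlinarith [sq_nonneg q, sq_nonneg p]
  have h4 : ev a v = -p := by
    show (show E →L[ℝ] ℝ from a) (q • u + (-p) • r) = -p
    rw [map_add, map_smul, map_smul]
    have e1 : (show E →L[ℝ] ℝ from a) u = 0 := hau
    have e2 : (show E →L[ℝ] ℝ from a) r = 1 := ha
    rw [e1, e2]
    simp
  have h5 : p = 0 := by
    have e1 : ev a v = 0 := by
      rw [h3]
      show (show E →L[ℝ] ℝ from a) 0 = 0
      exact map_zero _
    linarith
  have h6 : q = 0 := by
    rw [hv, h5, neg_zero, zero_smul, add_zero] at h3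
    exact (smul_eq_zero.1 h3).resolve_right hu
  have hr0 : r ≠ 0 := by
    rintro rfl
    have e1 : ev a (0 : E) = 0 := by
      show (show E →L[ℝ] ℝ from a) 0 = 0
      exact map_zero _
    rw [e1] at ha
    exact zero_ne_one ha
  have := hpos r hr0 h6
  linarith

theorem main [T2Space M] [CompactSpace M] [ConnectedSpace M]
    (hdim : 1 < Module.finrank ℝ E) (α : M → Cov E) (hα : IsContact α) (R : M → E)
    (hR : IsReeb α R) (Φ : M → ℝ → M) (hΦ : IsFlow R Φ)
    (g : M → Bil E) (hg : IsPseudoMetric g) (hinv : Preserves Φ g) (x : M)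
    (h : BoundedAlong E Φ x ∨ PositiveAt α R g x ∨
      (IsLorentz (g x) ∧ bev (g x) (R x) (R x) ≤ 0)) :
    ∃ (c₁ c₂ : ℝ → M) (T₁ T₂ : ℝ), IsPeriodicOrbit R c₁ T₁ ∧ IsPeriodicOrbit R c₂ T₂ ∧
      Disjoint (Set.range c₁) (Set.range c₂) := by
  have hRF := rf_of hα hR hΦ
  rcases h with ⟨n, e, he, C, hC⟩ | h
  · obtain ⟨t, ht, hb⟩ := Filter.exists_seq_forall_of_frequently hC
    obtain ⟨l⟩ : Nonempty (Ultrafilter ℕ) := ⟨Filter.hyperfilter ℕ⟩
    set l : Ultrafilter ℕ := Filter.hyperfilter ℕ with hl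
    have htl : Tendsto t l atTop := ht.mono_left (by
      rw [← Nat.cofinite_eq_atTop]
      exact Filter.hyperfilter_le_cofinite)
    obtain ⟨y, hy⟩ := WU.exists_limit_compact l (fun k => Φ x (t k))
    obtain ⟨C', hC'⟩ := bdd_of_imm he (f := fun k z => Φ z (t k))
      (fun k => hRF.smooth_t (t k)) l hy hb
    exact periodic_of_near hdim hα hR he hΦ hRF.smooth_t
      (fun δ hδ => exists_near hg he hRF hinv x l htl hy hC' hδ 1)
  · have hp : PositiveAt α R g x := by
      rcases h with h | ⟨h1, h2⟩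
      · exact h
      · exact fun u hu hau hur => pos_of_causal (hg.symm x) h1 (hR.unit x) h2 hu hau hur
    obtain ⟨n, e, he1, he2, he3⟩ := exists_embedding_euclidean_of_compact (I := 𝓘(ℝ, E)) (M := M)
    have he : IsInjImmersion (E := E) e := ⟨he1, he2.injective, he3⟩
    set l : Ultrafilter ℕ := Filter.hyperfilter ℕ with hl
    have htl : Tendsto (fun k : ℕ => (k:ℝ)) l atTop := tendsto_natCast_atTop_atTop.mono_left (by
      rw [← Nat.cofinite_eq_atTop]
      exact Filter.hyperfilter_le_cofinite)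
    obtain ⟨y, hy⟩ := WU.exists_limit_compact l (fun k => Φ x ((k:ℕ):ℝ))
    obtain ⟨C', hC'⟩ := bdd_of_pos hg hα hRF hinv hp l hy
    exact periodic_of_near hdim hα hR he hΦ hRF.smooth_t
      (fun δ hδ => exists_near hg he hRF hinv x l htl hy hC' hδ 1)

end Pool.Agent.H75.PR
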